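import Pool.Agent.Q90.SM.Stm

/-! Lemmas ANA2 and ANA3: the mean of `|F'|²` and of `conj F * v F'`. -/

set_option autoImplicit false
open Complex Filter Topology Set Metric MeasureTheory

namespace Pool.Agent.Q216.SM

open Pool.Agent.TH325.SI (mn em la)
open Pool.Agent.H713R2 (tc)
open Q90.SM

theorem hasSum_S2 {F : ℂ → ℂ} (hF : DifferentiableOn ℂ F (ball 0 1)) {s : ℝ} (h0 : 0 < s)
    (h1 : s < 1) : HasSum (fun n : ℕ => (n : ℝ) ^ 2 * ‖tc F n‖ ^ 2 * s ^ (2 * n))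
      (s ^ 2 * mn (deriv F) s) := by
  have h := (Pool.Agent.TH325.SI.par_deriv hF h0 h1).mul_left (s ^ 2)
  rw [← hasSum_nat_add_iff' 1]
  simp only [Finset.range_one, Finset.sum_singleton, Nat.cast_zero, ne_eq, OfNat.ofNat_ne_zero,
    not_false_eq_true, zero_pow, zero_mul, sub_zero]
  have e : (fun n : ℕ => ((n + 1 : ℕ) : ℝ) ^ 2 * ‖tc F (n + 1)‖ ^ 2 * s ^ (2 * (n + 1))) =
      fun n : ℕ => s ^ 2 * (((n : ℝ) + 1) ^ 2 * ‖tc F (n + 1)‖ ^ 2 * s ^ (2 * n)) := by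
    funext n
    push_cast
    ring
  rw [e]
  exact h

theorem summable_S1 {F : ℂ → ℂ} (hF : DifferentiableOn ℂ F (ball 0 1)) {s : ℝ} (h0 : 0 < s)
    (h1 : s < 1) : Summable (fun n : ℕ => (n : ℝ) * ‖tc F n‖ ^ 2 * s ^ (2 * n)) := by
  refine Summable.of_nonneg_of_le (fun n => by positivity) (fun n => ?_) (hasSum_S2 hF h0 h1).summable
  have h2 : (n : ℝ) ≤ (n : ℝ) ^ 2 := by
    rcases Nat.eq_zero_or_pos n with rfl | hn
    · simp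
    · have : (1 : ℝ) ≤ n := by exact_mod_cast hn
      nlinarith
  have h3 : 0 ≤ ‖tc F n‖ ^ 2 * s ^ (2 * n) := by positivity
  calc (n : ℝ) * ‖tc F n‖ ^ 2 * s ^ (2 * n) = (n : ℝ) * (‖tc F n‖ ^ 2 * s ^ (2 * n)) := by ring
    _ ≤ (n : ℝ) ^ 2 * (‖tc F n‖ ^ 2 * s ^ (2 * n)) := mul_le_mul_of_nonneg_right h2 h3
    _ = _ := by ring

theorem ana2 : S_ana2 := by
  intro F hF s h0 h1
  have h2 := hasSum_S2 hF h0 h1
  refine ⟨h2.tsum_eq, tsum_nonneg fun n => by positivity, ?_⟩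
  unfold S1 S2
  refine (summable_S1 hF h0 h1).tsum_le_tsum (fun n => ?_) h2.summable
  have h2 : (n : ℝ) ≤ (n : ℝ) ^ 2 := by
    rcases Nat.eq_zero_or_pos n with rfl | hn
    · simp
    · have : (1 : ℝ) ≤ n := by exact_mod_cast hn
      nlinarith
  have h3 : 0 ≤ ‖tc F n‖ ^ 2 * s ^ (2 * n) := by positivity
  calc (n : ℝ) * ‖tc F n‖ ^ 2 * s ^ (2 * n) = (n : ℝ) * (‖tc F n‖ ^ 2 * s ^ (2 * n)) := by ring
    _ ≤ (n : ℝ) ^ 2 * (‖tc F n‖ ^ 2 * s ^ (2 * n)) := mul_le_mul_of_nonneg_right h2 h3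
    _ = _ := by ring

end Pool.Agent.Q216.SM
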