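import Pool.Agent.Q90.SM.Stm

/-! Lemma ANA3: the mean of `conj F * v F'`. -/

set_option autoImplicit false
open Complex Filter Topology Set Metric MeasureTheory

namespace Pool.Agent.Q216.SM

open Pool.Agent.TH325.SI (mn em la)
open Pool.Agent.H713R2 (tc)
open Q90.SM

theorem tc_vderiv {F : ℂ → ℂ} (hF : DifferentiableOn ℂ F (ball 0 1)) (n : ℕ) :
    tc (fun v => v * deriv F v) n = n * tc F n := by
  have hd : DifferentiableOn ℂ (deriv F) (ball 0 1) := hF.deriv isOpen_ball
  have hL : DifferentiableOn ℂ (fun v => v * deriv F v) (ball 0 1) := differentiableOn_id.mul hd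
  have h := Pool.Agent.H713R2.tc_unique (a := fun n : ℕ => (n : ℂ) * tc F n)
    (F := fun v => v * deriv F v) one_pos hL ?_
  · exact (congrFun h n).symm
  · filter_upwards [ball_mem_nhds (0 : ℂ) one_pos] with x hx
    have h1 := (Pool.Agent.H713R2.hasSum_tc hd hx).mul_left x
    rw [← hasSum_nat_add_iff' 1]
    simp only [Finset.range_one, Finset.sum_singleton, Nat.cast_zero, zero_mul, sub_zero]
    have e : (fun k : ℕ => ((k + 1 : ℕ) : ℂ) * tc F (k + 1) * x ^ (k + 1)) =
        fun k : ℕ => x * (tc (deriv F) k * x ^ k) := by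
      funext k
      rw [Pool.Agent.H713R2.tc_deriv]
      push_cast
      ring
    rw [e]
    exact h1

theorem ana3 : S_ana3 := by
  intro F hF s h0 h1
  have hd : DifferentiableOn ℂ (deriv F) (ball 0 1) := hF.deriv isOpen_ball
  have hL : DifferentiableOn ℂ (fun v => v * deriv F v) (ball 0 1) := differentiableOn_id.mul hd
  have h := Pool.Agent.H713R2.AR.parseval_tc hF hL h0 h1
  have e1 : (fun k : ℕ => 2 * (Real.pi : ℂ) * ((starRingEnd ℂ) (tc F k) *
      tc (fun v => v * deriv F v) k * (s : ℂ) ^ (2 * k)))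
      = fun k : ℕ => ((2 * Real.pi * ((k : ℝ) * ‖tc F k‖ ^ 2 * s ^ (2 * k)) : ℝ) : ℂ) := by
    funext k
    rw [tc_vderiv hF]
    have h2 : (starRingEnd ℂ) (tc F k) * ((k : ℂ) * tc F k) = (k : ℂ) * (‖tc F k‖ : ℂ) ^ 2 := by
      rw [← Complex.conj_mul']
      ring
    rw [h2]
    push_cast
    ring
  rw [e1] at h
  have h3 : ∫ θ in (-Real.pi)..Real.pi, (starRingEnd ℂ) (F (circleMap 0 s θ)) *
      (circleMap 0 s θ * deriv F (circleMap 0 s θ)) =
      ∫ θ in (0:ℝ)..(2 * Real.pi), (starRingEnd ℂ) (F (circleMap 0 s θ)) *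
      (circleMap 0 s θ * deriv F (circleMap 0 s θ)) := by
    have hper : Function.Periodic (fun θ : ℝ => (starRingEnd ℂ) (F (circleMap 0 s θ)) *
        (circleMap 0 s θ * deriv F (circleMap 0 s θ))) (2 * Real.pi) := by
      intro θ
      simp only
      rw [periodic_circleMap 0 s θ]
    have := hper.intervalIntegral_add_eq (-Real.pi) 0
    rw [zero_add] at this
    rw [← this]
    congr 1
    ring
  rw [h3] at h
  have h4 : HasSum (fun k : ℕ => ((2 * Real.pi * ((k : ℝ) * ‖tc F k‖ ^ 2 * s ^ (2 * k)) : ℝ) : ℂ))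
      ((2 * Real.pi * S1 F s : ℝ) : ℂ) := by
    rw [Complex.hasSum_ofReal]
    refine HasSum.mul_left _ ?_
    have h5 : Summable (fun n : ℕ => (n : ℝ) * ‖tc F n‖ ^ 2 * s ^ (2 * n)) := by
      have h6 := Complex.hasSum_ofReal.1 (by
        have h7 := h.summable
        have h8 : Summable (fun k : ℕ => 2 * Real.pi * ((k : ℝ) * ‖tc F k‖ ^ 2 * s ^ (2 * k))) :=
          Complex.summable_ofReal.1 h7
        exact Complex.hasSum_ofReal.2 h8.hasSum)
      have h7 := h6.summable.mul_left (2 * Real.pi)⁻¹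
      refine h7.congr fun k => ?_
      have hpi := Real.pi_pos
      field_simp
    exact h5.hasSum
  have h5 := h.unique h4
  rw [h5]
  have hpi : ((2 * Real.pi : ℝ) : ℂ) ≠ 0 := by
    exact_mod_cast (by positivity : (2 * Real.pi : ℝ) ≠ 0)
  push_cast at hpi ⊢
  field_simp

end Pool.Agent.Q216.SM
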