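import Mathlib

/-!
# Pseudo-Boolean functions expressible by binary submodular functions: definitions
-/

set_option autoImplicit false

namespace Pool.Agent.Q216.SM

/-- A function of two Boolean variables is submodular. -/
def BinSub (g : Bool → Bool → ℚ) : Prop :=
  g false false + g true true ≤ g false true + g true false

/-- `f : {0,1}^n → ℚ` is submodular. -/
def Submodular {n : ℕ} (f : (Fin n → Bool) → ℚ) : Prop :=
  ∀ x y : Fin n → Bool,
    f (fun i => x i && y i) + f (fun i => x i || y i) ≤ f x + f y

/-- `f : {0,1}^n → ℚ` is expressible by binary submodular functions: there are `m` auxiliary Boolean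
variables and finitely many binary submodular functions `g j`, each applied to two of the `n + m`
variables, such that `f x` is the minimum over `y ∈ {0,1}^m` of the sum of the `g j`. -/
def Expressible {n : ℕ} (f : (Fin n → Bool) → ℚ) : Prop :=
  ∃ (m r : ℕ) (g : Fin r → Bool → Bool → ℚ) (s t : Fin r → Fin n ⊕ Fin m),
    (∀ j, BinSub (g j)) ∧
    ∀ x : Fin n → Bool, IsLeast (Set.range fun y : Fin m → Bool =>
      ∑ j, g j (Sum.elim x y (s j)) (Sum.elim x y (t j))) (f x)

/-- An instance: the number `n` of variables and the list of the pairs `(I, a_I)`. -/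
abbrev Inst := ℕ × List (List ℕ × ℚ)

/-- The value of variable `i`, as a rational number. -/
def val {n : ℕ} (x : Fin n → Bool) (i : ℕ) : ℚ :=
  if h : i < n then (if x ⟨i, h⟩ then 1 else 0) else 0

/-- The polynomial function `x ↦ ∑_I a_I ∏_{i ∈ I} x_i` given by an instance. -/
def Inst.eval (p : Inst) (x : Fin p.1 → Bool) : ℚ :=
  (p.2.map fun t => t.2 * (t.1.map (val x)).prod).sum

/-- The instance is the list of the nonzero coefficients of a polynomial of degree 4: every `I` is
a strictly increasing list of at most 4 elements of `{0, …, n - 1}`, some `I` has 4 elements,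
the sets `I` are pairwise different, and the coefficients `a_I` are not zero. -/
def Inst.Valid (p : Inst) : Prop :=
  (∀ t ∈ p.2, t.1.Pairwise (· < ·) ∧ (∀ i ∈ t.1, i < p.1) ∧ t.1.length ≤ 4 ∧ t.2 ≠ 0) ∧
  (∃ t ∈ p.2, t.1.length = 4) ∧ (p.2.map Prod.fst).Nodup

end Pool.Agent.Q216.SM
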