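import Pool.Agent.Q216.SM.Defs

/-!
# Expressible functions: closure properties and gadgets
-/

set_option autoImplicit false

namespace Pool.Agent.Q216.SM

/-- expressibility with arbitrary finite index types -/
def Ex {V : Type} (f : (V → Bool) → ℚ) : Prop :=
  ∃ (W ι : Type) (_ : Fintype W) (_ : Fintype ι) (g : ι → Bool → Bool → ℚ) (s t : ι → V ⊕ W),
    (∀ j, BinSub (g j)) ∧
    ∀ x : V → Bool, IsLeast (Set.range fun y : W → Bool =>
      ∑ j, g j (Sum.elim x y (s j)) (Sum.elim x y (t j))) (f x)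

theorem Ex.expressible {n : ℕ} {f : (Fin n → Bool) → ℚ} (hf : Ex f) : Expressible f := by
  obtain ⟨W, ι, _, _, g, s, t, hg, hmin⟩ := hf
  let e := Fintype.equivFin W
  let e' := Fintype.equivFin ι
  refine ⟨Fintype.card W, Fintype.card ι, fun j => g (e'.symm j),
    fun j => Sum.map id e (s (e'.symm j)), fun j => Sum.map id e (t (e'.symm j)),
    fun j => hg _, fun x => ?_⟩
  have key : ∀ y : Fin (Fintype.card W) → Bool,
      ∑ j, g (e'.symm j) (Sum.elim x y (Sum.map id e (s (e'.symm j))))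
        (Sum.elim x y (Sum.map id e (t (e'.symm j)))) =
      ∑ j, g j (Sum.elim x (y ∘ e) (s j)) (Sum.elim x (y ∘ e) (t j)) := by
    intro y
    rw [← e'.symm.sum_comp (fun j => g j (Sum.elim x (y ∘ e) (s j)) (Sum.elim x (y ∘ e) (t j)))]
    refine Finset.sum_congr rfl fun j _ => ?_
    have h : ∀ w : Fin n ⊕ W, Sum.elim x y (Sum.map id e w) = Sum.elim x (y ∘ e) w := by
      intro w
      cases w <;> rfl
    rw [h, h]
  constructor
  · obtain ⟨y, hy⟩ := (hmin x).1
    refine ⟨y ∘ e.symm, ?_⟩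
    simp only [key]
    rw [← hy]
    congr 1
    funext j
    have : (y ∘ e.symm) ∘ e = y := by
      funext w
      simp
    rw [this]
  · rintro _ ⟨y, rfl⟩
    simp only [key]
    exact (hmin x).2 ⟨y ∘ e, rfl⟩

variable {V : Type}

theorem Ex.congr {f f' : (V → Bool) → ℚ} (hf : Ex f) (h : ∀ x, f x = f' x) : Ex f' := by
  have : f = f' := funext h
  rwa [← this]

theorem Ex.add {f f' : (V → Bool) → ℚ} (hf : Ex f) (hf' : Ex f') : Ex (fun x => f x + f' x) := by
  obtain ⟨W, ι, _, _, g, s, t, hg, hmin⟩ := hf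
  obtain ⟨W', ι', _, _, g', s', t', hg', hmin'⟩ := hf'
  refine ⟨W ⊕ W', ι ⊕ ι', inferInstance, inferInstance, Sum.elim g g',
    Sum.elim (fun j => Sum.map id Sum.inl (s j)) (fun j => Sum.map id Sum.inr (s' j)),
    Sum.elim (fun j => Sum.map id Sum.inl (t j)) (fun j => Sum.map id Sum.inr (t' j)), ?_, ?_⟩
  · rintro (j | j)
    · exact hg j
    · exact hg' j
  · intro x
    have h1 : ∀ (y : W ⊕ W' → Bool) (w : V ⊕ W),
        Sum.elim x y (Sum.map id Sum.inl w) = Sum.elim x (y ∘ Sum.inl) w := by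
      intro y w
      cases w <;> rfl
    have h2 : ∀ (y : W ⊕ W' → Bool) (w : V ⊕ W'),
        Sum.elim x y (Sum.map id Sum.inr w) = Sum.elim x (y ∘ Sum.inr) w := by
      intro y w
      cases w <;> rfl
    constructor
    · obtain ⟨y, hy⟩ := (hmin x).1
      obtain ⟨y', hy'⟩ := (hmin' x).1
      refine ⟨Sum.elim y y', ?_⟩
      simp only [Fintype.sum_sum_type, Sum.elim_inl, Sum.elim_inr, h1, h2, Sum.elim_comp_inl,
        Sum.elim_comp_inr]
      rw [← hy, ← hy']
    · rintro _ ⟨y, rfl⟩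
      simp only [Fintype.sum_sum_type, Sum.elim_inl, Sum.elim_inr, h1, h2]
      exact add_le_add ((hmin x).2 ⟨y ∘ Sum.inl, rfl⟩) ((hmin' x).2 ⟨y ∘ Sum.inr, rfl⟩)

theorem Ex.smul {f : (V → Bool) → ℚ} (hf : Ex f) {c : ℚ} (hc : 0 ≤ c) :
    Ex (fun x => c * f x) := by
  obtain ⟨W, ι, _, _, g, s, t, hg, hmin⟩ := hf
  refine ⟨W, ι, inferInstance, inferInstance, fun j a b => c * g j a b, s, t, ?_, ?_⟩
  · intro j
    have := hg j
    unfold BinSub at this ⊢
    nlinarith
  · intro x
    constructor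
    · obtain ⟨y, hy⟩ := (hmin x).1
      refine ⟨y, ?_⟩
      simp only [← hy, Finset.mul_sum]
    · rintro _ ⟨y, rfl⟩
      simp only [← Finset.mul_sum]
      exact mul_le_mul_of_nonneg_left ((hmin x).2 ⟨y, rfl⟩) hc

theorem Ex.zero : Ex (fun _ : V → Bool => (0 : ℚ)) :=
  ⟨Empty, Empty, inferInstance, inferInstance, fun j => j.elim, fun j => j.elim, fun j => j.elim,
    fun j => j.elim, fun x => ⟨⟨fun j => j.elim, by simp⟩, by rintro _ ⟨y, rfl⟩; simp⟩⟩

theorem Ex.sum {κ : Type} (S : Finset κ) (f : κ → (V → Bool) → ℚ) (h : ∀ k ∈ S, Ex (f k)) :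
    Ex (fun x => ∑ k ∈ S, f k x) := by
  classical
  induction S using Finset.induction_on with
  | empty => simpa using Ex.zero
  | insert a S ha ih =>
    refine Ex.congr ((h a (Finset.mem_insert_self _ _)).add
      (ih fun k hk => h k (Finset.mem_insert_of_mem hk))) fun x => ?_
    rw [Finset.sum_insert ha]

/-- the value of a Boolean variable as a rational -/
def bv (b : Bool) : ℚ := if b then 1 else 0

@[simp] theorem bv_true : bv true = 1 := rfl
@[simp] theorem bv_false : bv false = 0 := rfl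

theorem bv_nonneg (b : Bool) : 0 ≤ bv b := by cases b <;> simp

/-- a sum of functions of pairs of variables -/
theorem Ex.bin {g : Bool → Bool → ℚ} (hg : BinSub g) (u v : V) :
    Ex (fun x : V → Bool => g (x u) (x v)) :=
  ⟨Empty, Unit, inferInstance, inferInstance, fun _ => g, fun _ => Sum.inl u, fun _ => Sum.inl v,
    fun _ => hg, fun x => ⟨⟨fun j => j.elim, by simp⟩, by rintro _ ⟨y, rfl⟩; simp⟩⟩

/-- constants: need one variable or an auxiliary one -/
theorem Ex.const (c : ℚ) : Ex (fun _ : V → Bool => c) :=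
  ⟨Unit, Unit, inferInstance, inferInstance, fun _ _ _ => c, fun _ => Sum.inr (), fun _ => Sum.inr (),
    fun _ => by unfold BinSub; linarith, fun x => ⟨⟨fun _ => true, by simp⟩,
      by rintro _ ⟨y, rfl⟩; simp⟩⟩

theorem Ex.lin (c : ℚ) (u : V) : Ex (fun x : V → Bool => c * bv (x u)) :=
  Ex.bin (g := fun a _ => c * bv a) (by unfold BinSub; simp) u u

theorem Ex.pair {c : ℚ} (hc : 0 ≤ c) (u v : V) :
    Ex (fun x : V → Bool => -(c * (bv (x u) * bv (x v)))) :=
  Ex.bin (g := fun a b => -(c * (bv a * bv b))) (by unfold BinSub; simp [hc]) u v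

/-- `min (0, c₀ - ∑ c_v x_v)` with nonnegative `c_v` -/
theorem Ex.gadget (S : Finset V) (c : V → ℚ) (hc : ∀ v ∈ S, 0 ≤ c v) (c₀ : ℚ) :
    Ex (fun x : V → Bool => min 0 (c₀ - ∑ v ∈ S, c v * bv (x v))) := by
  refine ⟨Unit, Option S, inferInstance, inferInstance,
    fun j => match j with
      | none => fun a _ => c₀ * bv a
      | some v => fun a b => -(c v * (bv a * bv b)),
    fun _ => Sum.inr (),
    fun j => match j with
      | none => Sum.inr ()
      | some v => Sum.inl v.1, ?_, ?_⟩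
  · rintro (_ | v)
    · simp [BinSub]
    · simp [BinSub, hc v.1 v.2]
  · intro x
    have key : ∀ y : Unit → Bool, (∑ j : Option S, (match j with
      | none => fun a _ => c₀ * bv a
      | some v => fun a b => -(c v * (bv a * bv b)) : Bool → Bool → ℚ) (Sum.elim x y (Sum.inr ()))
        (Sum.elim x y (match j with
      | none => Sum.inr ()
      | some v => Sum.inl v.1))) = bv (y ()) * (c₀ - ∑ v ∈ S, c v * bv (x v)) := by
      intro y
      rw [Fintype.sum_option]
      simp only [Sum.elim_inr, Sum.elim_inl]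
      rw [Finset.sum_coe_sort S (fun v => -(c v * (bv (y ()) * bv (x v)))), mul_sub, Finset.mul_sum,
        Finset.sum_neg_distrib, mul_comm c₀, sub_eq_add_neg]
      congr 2
      exact Finset.sum_congr rfl fun v _ => by ring
    constructor
    · rcases le_total 0 (c₀ - ∑ v ∈ S, c v * bv (x v)) with h | h
      · refine ⟨fun _ => false, ?_⟩
        simp only [key]
        rw [min_eq_left h]
        simp
      · refine ⟨fun _ => true, ?_⟩
        simp only [key]
        rw [min_eq_right h]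
        simp
    · rintro _ ⟨y, rfl⟩
      simp only [key]
      cases y ()
      · simp
      · simp

theorem Ex.neg_pairs_mul {c : ℚ} (hc : 0 ≤ c) (S S' : Finset V) :
    Ex (fun x : V → Bool => -(c * ((∑ u ∈ S, bv (x u)) * ∑ v ∈ S', bv (x v)))) := by
  refine Ex.congr (Ex.sum S (fun u x => ∑ v ∈ S', -(c * (bv (x u) * bv (x v))))
    fun u _ => Ex.sum S' _ fun v _ => Ex.pair hc u v) fun x => ?_
  rw [Finset.sum_mul, Finset.mul_sum, ← Finset.sum_neg_distrib]
  refine Finset.sum_congr rfl fun u _ => ?_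
  rw [Finset.mul_sum, Finset.mul_sum, ← Finset.sum_neg_distrib]

/-- expressible functions are submodular -/
theorem Ex.submod {f : (V → Bool) → ℚ} (hf : Ex f) (x x' : V → Bool) :
    f (fun i => x i && x' i) + f (fun i => x i || x' i) ≤ f x + f x' := by
  obtain ⟨W, ι, _, _, g, s, t, hg, hmin⟩ := hf
  obtain ⟨y, hy⟩ := (hmin x).1
  obtain ⟨y', hy'⟩ := (hmin x').1
  refine le_trans (add_le_add ((hmin _).2 ⟨fun i => y i && y' i, rfl⟩)
    ((hmin _).2 ⟨fun i => y i || y' i, rfl⟩)) ?_
  rw [← hy, ← hy']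
  simp only
  rw [← Finset.sum_add_distrib, ← Finset.sum_add_distrib]
  refine Finset.sum_le_sum fun j _ => ?_
  have h1 : ∀ w : V ⊕ W, Sum.elim (fun i => x i && x' i) (fun i => y i && y' i) w =
      (Sum.elim x y w && Sum.elim x' y' w) := by
    intro w
    cases w <;> rfl
  have h2 : ∀ w : V ⊕ W, Sum.elim (fun i => x i || x' i) (fun i => y i || y' i) w =
      (Sum.elim x y w || Sum.elim x' y' w) := by
    intro w
    cases w <;> rfl
  rw [h1, h1, h2, h2]
  have hj := hg j
  unfold BinSub at hj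
  generalize Sum.elim x y (s j) = a
  generalize Sum.elim x y (t j) = b
  generalize Sum.elim x' y' (s j) = a'
  generalize Sum.elim x' y' (t j) = b'
  cases a <;> cases b <;> cases a' <;> cases b' <;>
    simp only [Bool.and_true, Bool.and_false, Bool.or_true, Bool.or_false] <;> linarith

end Pool.Agent.Q216.SM
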