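import Pool.Agent.Q216.SM.Defs

/-!
# An inequality satisfied by all expressible functions
-/

set_option autoImplicit false

namespace Pool.Agent.Q216.SM

/-- the code of a row -/
def code (u : Fin 5 → Bool) : ℕ :=
  (u 0).toNat + 2 * (u 1).toNat + 4 * (u 2).toNat + 8 * (u 3).toNat + 16 * (u 4).toNat

/-- the table of the separating operation -/
def tab : List ℕ := [0, 8, 8, 24, 8, 24, 12, 28, 16, 24, 24, 25, 24, 28, 28, 29, 16, 24, 24, 28, 24,
  26, 28, 30, 20, 28, 28, 29, 28, 30, 29, 31]

/-- the separating operation -/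
def Phi (u : Fin 5 → Bool) (j : Fin 5) : Bool := (tab.getD (code u) 0).testBit j

def row (a : ℕ) (j : Fin 5) : Bool := a.testBit j

theorem row_code (u : Fin 5 → Bool) : row (code u) = u := by
  have h : ∀ b0 b1 b2 b3 b4 : Bool, ∀ j : Fin 5,
      row (code ![b0, b1, b2, b3, b4]) j = ![b0, b1, b2, b3, b4] j := by decide
  have hu : u = ![u 0, u 1, u 2, u 3, u 4] := by
    funext j
    fin_cases j <;> rfl
  funext j
  conv_lhs => rw [hu]
  conv_rhs => rw [hu]
  exact h _ _ _ _ _ j

theorem code_lt (u : Fin 5 → Bool) : code u < 32 := by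
  have : ∀ b : Bool, b.toNat ≤ 1 := by decide
  unfold code
  have h0 := this (u 0)
  have h1 := this (u 1)
  have h2 := this (u 2)
  have h3 := this (u 3)
  have h4 := this (u 4)
  omega

/-- number of ones -/
def cnt (u : Fin 5 → Bool) : ℕ := ∑ j, (u j).toNat

/-- number of common ones -/
def ip (u v : Fin 5 → Bool) : ℕ := ∑ j, (u j && v j).toNat

theorem cnt_Phi_code : ∀ a < 32, (∑ j : Fin 5, ((tab.getD a 0).testBit j).toNat) =
    ∑ j : Fin 5, (Nat.testBit a j).toNat := by decide

set_option maxRecDepth 100000 in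
theorem ip_Phi_code : ∀ a < 32, ∀ b < 32, (∑ j : Fin 5, (Nat.testBit a j && Nat.testBit b j).toNat) ≤
    ∑ j : Fin 5, ((tab.getD a 0).testBit j && (tab.getD b 0).testBit j).toNat := by decide

theorem cnt_Phi (u : Fin 5 → Bool) : cnt (Phi u) = cnt u := by
  have h := cnt_Phi_code (code u) (code_lt u)
  have h2 := row_code u
  unfold cnt Phi
  rw [h]
  conv_rhs => rw [← h2]
  rfl

theorem ip_Phi (u v : Fin 5 → Bool) : ip u v ≤ ip (Phi u) (Phi v) := by
  have h := ip_Phi_code (code u) (code_lt u) (code v) (code_lt v)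
  have h2 := row_code u
  have h3 := row_code v
  have e : ip u v = ∑ j : Fin 5, (Nat.testBit (code u) j && Nat.testBit (code v) j).toNat := by
    conv_lhs => rw [← h2, ← h3]
    rfl
  rw [e]
  exact h

theorem bin_eq (g : Bool → Bool → ℚ) (a b : Bool) : g a b = g false false +
    (g true false - g false false) * (a.toNat : ℚ) + (g false true - g false false) * (b.toNat : ℚ) +
    (g false false + g true true - g false true - g true false) * ((a && b).toNat : ℚ) := by
  cases a <;> cases b <;> (simp; try ring)

theorem bin_Phi {g : Bool → Bool → ℚ} (hg : BinSub g) (u v : Fin 5 → Bool) :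
    ∑ j, g (Phi u j) (Phi v j) ≤ ∑ j, g (u j) (v j) := by
  have key : ∀ u v : Fin 5 → Bool, ∑ j, g (u j) (v j) = 5 * g false false +
      (g true false - g false false) * (cnt u : ℚ) + (g false true - g false false) * (cnt v : ℚ) +
      (g false false + g true true - g false true - g true false) * (ip u v : ℚ) := by
    intro u v
    unfold cnt ip
    push_cast
    rw [Finset.mul_sum, Finset.mul_sum, Finset.mul_sum, show (5 : ℚ) * g false false =
      ∑ _j : Fin 5, g false false by simp, ← Finset.sum_add_distrib, ← Finset.sum_add_distrib,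
      ← Finset.sum_add_distrib]
    exact Finset.sum_congr rfl fun j _ => bin_eq g _ _
  rw [key, key, cnt_Phi, cnt_Phi]
  have h1 : (ip u v : ℚ) ≤ (ip (Phi u) (Phi v) : ℚ) := by exact_mod_cast ip_Phi u v
  have h2 : g false false + g true true - g false true - g true false ≤ 0 := by
    unfold BinSub at hg
    linarith
  nlinarith

/-- The inequality: if every row of the points `q` is the image under `Phi` of the row of the
points `p`, then the sum of `f` over the `q j` is at most the sum over the `p j`. -/
theorem expressible_ineq {n : ℕ} {f : (Fin n → Bool) → ℚ} (hf : Expressible f)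
    (p q : Fin 5 → Fin n → Bool) (hpq : ∀ i j, q j i = Phi (fun k => p k i) j) :
    ∑ j, f (q j) ≤ ∑ j, f (p j) := by
  obtain ⟨m, r, g, s, t, hg, hmin⟩ := hf
  choose y hy using fun j => (hmin (p j)).1
  let z : Fin 5 → Fin m → Bool := fun j k => Phi (fun l => y l k) j
  calc ∑ j, f (q j) ≤ ∑ j, ∑ l, g l (Sum.elim (q j) (z j) (s l)) (Sum.elim (q j) (z j) (t l)) :=
        Finset.sum_le_sum fun j _ => (hmin (q j)).2 ⟨z j, rfl⟩
    _ = ∑ l, ∑ j, g l (Sum.elim (q j) (z j) (s l)) (Sum.elim (q j) (z j) (t l)) :=
        Finset.sum_comm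
    _ ≤ ∑ l, ∑ j, g l (Sum.elim (p j) (y j) (s l)) (Sum.elim (p j) (y j) (t l)) := by
        refine Finset.sum_le_sum fun l _ => ?_
        have h := bin_Phi (hg l) (fun j => Sum.elim (p j) (y j) (s l))
          (fun j => Sum.elim (p j) (y j) (t l))
        refine le_trans (le_of_eq ?_) h
        refine Finset.sum_congr rfl fun j _ => ?_
        have e : ∀ w : Fin n ⊕ Fin m, Sum.elim (q j) (z j) w =
            Phi (fun j => Sum.elim (p j) (y j) w) j := by
          intro w
          cases w with
          | inl i => exact hpq i j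
          | inr k => rfl
        rw [e, e]
    _ = ∑ j, ∑ l, g l (Sum.elim (p j) (y j) (s l)) (Sum.elim (p j) (y j) (t l)) :=
        Finset.sum_comm
    _ = ∑ j, f (p j) := Finset.sum_congr rfl fun j _ => hy j

end Pool.Agent.Q216.SM
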