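import Pool.Agent.Q216.SM.Pat
import Pool.Agent.Q216.SM.Neg

/-!
# The functions of the reduction
-/

set_option autoImplicit false

namespace Pool.Agent.Q216.SM

variable {N : ℕ}

/-- the position of the variable `y t` -/
abbrev yv (t : Fin N) : Fin (4 + N) := Fin.natAdd 4 t

/-- the position of the variable `x i`, `i < 4` -/
abbrev xv (i : Fin 4) : Fin (4 + N) := Fin.castAdd N i

/-- the support of the `y`-part -/
def supp (x : Fin (4 + N) → Bool) : Finset (Fin N) := Finset.univ.filter fun t => x (yv t) = true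

/-- the number of ones in the `y`-part -/
def ys (x : Fin (4 + N) → Bool) : ℚ := ∑ t : Fin N, bv (x (yv t))

/-- the sum of the products of pairs of variables (other than the pair `x 2, x 3`) -/
def PS (x : Fin (4 + N) → Bool) : ℚ :=
  (bv (x (xv 2)) + bv (x (xv 3))) * ys x + ys x * (ys x - 1) / 2

/-- the four-variable part -/
def h4 (x : Fin (4 + N) → Bool) : ℚ :=
  -(bv (x (xv 0)) * bv (x (xv 1)) * ((1 - bv (x (xv 2))) * (1 - bv (x (xv 3))))) -
    (bv (x (xv 0)) + bv (x (xv 1))) * (bv (x (xv 2)) + bv (x (xv 3)))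

theorem xv_ne_yv (i : Fin 4) (t : Fin N) : xv i ≠ yv t := by
  intro h
  have := congrArg Fin.val h
  simp at this
  omega

theorem bv_sq (b : Bool) : bv b * bv b = bv b := by cases b <;> simp

theorem ex_sq {V : Type} (S : Finset V) {c : ℚ} (hc : 0 ≤ c) :
    Ex (fun x : V → Bool => -(c * ((∑ v ∈ S, bv (x v)) * ((∑ v ∈ S, bv (x v)) - 1) / 2))) := by
  refine Ex.congr ((Ex.neg_pairs_mul (c := c / 2) (by linarith) S S).add
    (Ex.sum S _ fun v _ => Ex.lin (c / 2) v)) fun x => ?_
  rw [← Finset.mul_sum]
  ring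

theorem ex_PS {c : ℚ} (hc : 0 ≤ c) : Ex (fun x : Fin (4 + N) → Bool => -(c * PS x)) := by
  refine Ex.congr ((Ex.neg_pairs_mul hc {xv 2, xv 3} (Finset.univ.map (Fin.natAddEmb 4))).add
    (ex_sq (Finset.univ.map (Fin.natAddEmb 4)) hc)) fun x => ?_
  have h23 : (xv 2 : Fin (4 + N)) ∉ ({xv 3} : Finset (Fin (4 + N))) := by
    rw [Finset.mem_singleton]
    intro h
    have := congrArg Fin.val h
    simp at this
  rw [Finset.sum_insert h23, Finset.sum_singleton, Finset.sum_map]
  unfold PS ys
  simp only [Fin.natAddEmb_apply]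
  ring

theorem ex_patt (K : ℚ) (hK1 : 1 ≤ K) (hK : (N : ℚ) + 1 ≤ K) (T : Finset (Fin N)) :
    Ex (fun x : Fin (4 + N) → Bool =>
      -(bv (x (xv 2)) * bv (x (xv 3)) * (if supp x = T then 1 else 0)) - K * PS x) := by
  classical
  set T1 : Finset (Fin (4 + N)) := T.map (Fin.natAddEmb 4) with hT1
  set T0 : Finset (Fin (4 + N)) := Tᶜ.map (Fin.natAddEmb 4) with hT0
  set U : Finset (Fin (4 + N)) := insert (xv 2) (insert (xv 3) T1) with hU
  have h3 : (xv 3 : Fin (4 + N)) ∉ T1 := by
    rw [hT1, Finset.mem_map]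
    rintro ⟨t, _, ht⟩
    exact xv_ne_yv 3 t ht.symm
  have h2 : (xv 2 : Fin (4 + N)) ∉ insert (xv 3) T1 := by
    rw [Finset.mem_insert, not_or]
    refine ⟨?_, ?_⟩
    · intro h
      have := congrArg Fin.val h
      simp at this
    · rw [hT1, Finset.mem_map]
      rintro ⟨t, _, ht⟩
      exact xv_ne_yv 2 t ht.symm
  have hd : Disjoint U T0 := by
    rw [Finset.disjoint_left]
    intro v hv hv0
    rw [hT0, Finset.mem_map] at hv0
    obtain ⟨t, ht, rfl⟩ := hv0
    rw [hU, Finset.mem_insert, Finset.mem_insert] at hv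
    rcases hv with hv | hv | hv
    · exact xv_ne_yv 2 t hv.symm
    · exact xv_ne_yv 3 t hv.symm
    · rw [hT1, Finset.mem_map] at hv
      obtain ⟨t', ht', he⟩ := hv
      have : t' = t := (Fin.natAddEmb 4).injective he
      rw [this] at ht'
      exact (Finset.mem_compl.1 ht) ht'
  have hcard : (U.card : ℚ) - 1 ≤ K := by
    have h1 : U.card = T.card + 1 + 1 := by
      rw [hU, Finset.card_insert_of_notMem h2, Finset.card_insert_of_notMem h3, hT1,
        Finset.card_map]
    have h2 : T.card ≤ N := by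
      have := Finset.card_le_univ T
      simpa using this
    have h3 : (T.card : ℚ) ≤ N := by exact_mod_cast h2
    rw [h1]
    push_cast
    linarith
  refine Ex.congr (((Ex.pattern U T0 hd (Finset.insert_nonempty _ _) K hK1 hcard).add
    (Ex.neg_pairs_mul (c := K) (by linarith) {xv 2, xv 3} T1)).add
    (ex_sq T1 (c := K) (by linarith))) fun x => ?_
  have h23 : (xv 2 : Fin (4 + N)) ∉ ({xv 3} : Finset (Fin (4 + N))) := fun h =>
    h2 (Finset.mem_insert.2 (Or.inl (Finset.mem_singleton.1 h)))
  have eY : ys x = (∑ v ∈ T1, bv (x v)) + ∑ v ∈ T0, bv (x v) := by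
    unfold ys
    rw [hT1, hT0, Finset.sum_map, Finset.sum_map, Finset.sum_add_sum_compl]
    rfl
  have eP : (∏ u ∈ U, bv (x u)) * ∏ v ∈ T0, (1 - bv (x v)) =
      bv (x (xv 2)) * bv (x (xv 3)) * (if supp x = T then 1 else 0) := by
    rw [hU, Finset.prod_insert h2, Finset.prod_insert h3, hT1, hT0, Finset.prod_map,
      Finset.prod_map]
    have : (∏ t ∈ T, bv (x (Fin.natAddEmb 4 t))) * ∏ t ∈ Tᶜ, (1 - bv (x (Fin.natAddEmb 4 t))) =
        if supp x = T then 1 else 0 := by
      split_ifs with h
      · subst h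
        rw [Finset.prod_eq_one, Finset.prod_eq_one, one_mul]
        · intro t ht
          have : x (yv t) = false := by
            rw [Finset.mem_compl, supp, Finset.mem_filter] at ht
            simpa using ht
          simp only [Fin.natAddEmb_apply]
          rw [this]
          simp
        · intro t ht
          have : x (yv t) = true := by
            rw [supp, Finset.mem_filter] at ht
            exact ht.2
          simp only [Fin.natAddEmb_apply]
          rw [this]
          simp
      · obtain ⟨t, ht⟩ : ∃ t, ¬ (t ∈ supp x ↔ t ∈ T) := by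
          by_contra hcon
          push Not at hcon
          exact h (Finset.ext hcon)
        by_cases htT : t ∈ T
        · have : x (yv t) = false := by
            rw [supp, Finset.mem_filter] at ht
            simp only [Finset.mem_univ, true_and, htT, iff_true] at ht
            simpa using ht
          rw [Finset.prod_eq_zero htT (by simp only [Fin.natAddEmb_apply]; rw [this]; simp),
            zero_mul]
        · have : x (yv t) = true := by
            rw [supp, Finset.mem_filter] at ht
            simp only [Finset.mem_univ, true_and, htT, iff_false, not_not] at ht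
            exact ht
          rw [Finset.prod_eq_zero (Finset.mem_compl.2 htT)
            (by simp only [Fin.natAddEmb_apply]; rw [this]; simp), mul_zero]
    rw [mul_assoc, mul_assoc, mul_assoc, this]
  have eS : ∑ u ∈ U, bv (x u) = bv (x (xv 2)) + (bv (x (xv 3)) + ∑ v ∈ T1, bv (x v)) := by
    rw [hU, Finset.sum_insert h2, Finset.sum_insert h3]
  rw [eP, eS, Finset.sum_insert h23, Finset.sum_singleton]
  unfold PS
  rw [eY]
  ring

/-- The second part of the function of the reduction is expressible. -/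
theorem ex_main (R : Finset (Fin N) → ℚ) (hR : ∀ T, 0 ≤ R T) (B : ℚ)
    (hB : ((N : ℚ) + 1) * ∑ T, R T ≤ B) :
    Ex (fun x : Fin (4 + N) → Bool =>
      -(bv (x (xv 2)) * bv (x (xv 3)) * R (supp x)) - B * PS x) := by
  have hN : (0 : ℚ) ≤ N := Nat.cast_nonneg N
  refine Ex.congr ((Ex.sum Finset.univ _ fun T _ =>
    (ex_patt ((N : ℚ) + 1) (by linarith) le_rfl T).smul (hR T)).add
      (ex_PS (c := B - ((N : ℚ) + 1) * ∑ T, R T) (by linarith))) fun x => ?_
  have h1 : ∑ T : Finset (Fin N), R T * (-(bv (x (xv 2)) * bv (x (xv 3)) *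
      (if supp x = T then 1 else 0)) - ((N : ℚ) + 1) * PS x) =
      -(bv (x (xv 2)) * bv (x (xv 3)) * R (supp x)) -
        (((N : ℚ) + 1) * ∑ T, R T) * PS x := by
    have h2 : ∀ T : Finset (Fin N), R T * (-(bv (x (xv 2)) * bv (x (xv 3)) *
        (if supp x = T then 1 else 0)) - ((N : ℚ) + 1) * PS x) =
        (if supp x = T then -(bv (x (xv 2)) * bv (x (xv 3)) * R T) else 0) -
          (((N : ℚ) + 1) * PS x) * R T := by
      intro T
      split_ifs <;> ring
    rw [Finset.sum_congr rfl fun T _ => h2 T, Finset.sum_sub_distrib, ← Finset.mul_sum,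
      Finset.sum_ite_eq]
    simp only [Finset.mem_univ, if_true]
    ring
  rw [h1]
  ring

theorem ex_h4 : Ex (fun x : Fin (4 + N) → Bool => h4 x - bv (x (xv 2)) * bv (x (xv 3))) := by
  have hne : ∀ i j : Fin 4, i ≠ j → (xv i : Fin (4 + N)) ≠ xv j := by
    intro i j hij h
    exact hij (Fin.castAdd_injective 4 N h)
  have h01 : (xv 0 : Fin (4 + N)) ∉ ({xv 1} : Finset (Fin (4 + N))) := by
    rw [Finset.mem_singleton]
    exact hne 0 1 (by decide)
  have h23 : (xv 2 : Fin (4 + N)) ∉ ({xv 3} : Finset (Fin (4 + N))) := by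
    rw [Finset.mem_singleton]
    exact hne 2 3 (by decide)
  have hd : Disjoint ({xv 0, xv 1} : Finset (Fin (4 + N))) {xv 2, xv 3} := by
    rw [Finset.disjoint_left]
    intro v hv hv'
    simp only [Finset.mem_insert, Finset.mem_singleton] at hv hv'
    rcases hv with rfl | rfl <;> rcases hv' with h | h
    · exact hne 0 2 (by decide) h
    · exact hne 0 3 (by decide) h
    · exact hne 1 2 (by decide) h
    · exact hne 1 3 (by decide) h
  refine Ex.congr (Ex.pattern {xv 0, xv 1} {xv 2, xv 3} hd (Finset.insert_nonempty _ _) 1 le_rfl ?_)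
    fun x => ?_
  · rw [Finset.card_insert_of_notMem h01, Finset.card_singleton]
    norm_num
  · rw [Finset.prod_insert h01, Finset.prod_singleton, Finset.prod_insert h23,
      Finset.prod_singleton, Finset.sum_insert h01, Finset.sum_singleton, Finset.sum_insert h23,
      Finset.sum_singleton]
    unfold h4
    have h1 := bv_sq (x (xv 2))
    have h2 := bv_sq (x (xv 3))
    linear_combination (-1 / 2 : ℚ) * h1 - (1 / 2 : ℚ) * h2

/-- integer version of `h4` -/
def hz (a b c d : Bool) : ℤ :=
  -(a.toNat * b.toNat * ((1 - c.toNat) * (1 - d.toNat)) : ℤ) -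
    (a.toNat + b.toNat) * (c.toNat + d.toNat)

theorem hz_sub : ∀ a b c d a' b' c' d' : Bool,
    hz (a && a') (b && b') (c && c') (d && d') + hz (a || a') (b || b') (c || c') (d || d') ≤
      hz a b c d + hz a' b' c' d' := by decide

theorem h4_eq (x : Fin (4 + N) → Bool) :
    h4 x = (hz (x (xv 0)) (x (xv 1)) (x (xv 2)) (x (xv 3)) : ℚ) := by
  have h : ∀ b : Bool, bv b = (b.toNat : ℚ) := by
    intro b
    cases b <;> simp
  unfold h4 hz
  simp only [h]
  push_cast
  ring

theorem h4_sub : Submodular (h4 (N := N)) := by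
  intro x y
  rw [h4_eq, h4_eq, h4_eq, h4_eq]
  exact_mod_cast hz_sub _ _ _ _ _ _ _ _

end Pool.Agent.Q216.SM
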