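import Pool.Agent.Q216.SM.Pol
import Pool.Agent.H25R3.Cones.Compl

/-!
# Recognising expressible quartic submodular polynomials is `coNP`-hard
-/

set_option autoImplicit false

namespace Pool.Agent.Q216.SM

open Pool.Agent.NPC Pool.Agent.NPC.R671.SS Pool.Agent.H673R2

theorem nice_pos {w : List ℕ} {W : ℕ} (h : Nice (w, W)) : 0 < W := by
  obtain ⟨h1, h2⟩ := h
  cases w with
  | nil => simp at h2
  | cons a w =>
    have := h1 a (by simp)
    simp only at this
    omega

theorem hard : CoNPHardOn (fun p : Inst => p.Valid ∧ Submodular p.eval)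
    (fun p : Inst => Expressible p.eval) := by
  refine coNPHardOn_of hardPr_SubsetSum poly_red ?_ ?_
  · rintro ⟨w, W⟩ h
    refine ⟨red_valid w W h.1 (nice_pos h), red_submodular w W fun a ha => ?_⟩
    have := (h.1 a ha).2
    simp only at this
    omega
  · rintro ⟨w, W⟩ h
    have hw : ∀ a ∈ w, a ≤ 2 * W := by
      intro a ha
      have := (h.1 a ha).2
      simp only at this
      omega
    constructor
    · exact red_not_expressible w W hw
    · intro h1
      by_contra h2
      exact h1 (red_expressible w W hw h2)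

/-- A polynomial-time algorithm for the promise problem gives `P = NP`. -/
theorem collapse {Pr P : Inst → Prop} (hP : CoNPHardOn Pr P) {V : List Bool → List Bool}
    (hV : PolyTime V) (h : ∀ p : Inst, Pr p → (P p ↔ V (bits p) = [true])) :
    ∀ L, InNP L → InP L := by
  intro L hL
  have h1 : InCoNP Lᶜ := by
    unfold InCoNP
    rwa [compl_compl]
  obtain ⟨f, hf, hpr, hfL⟩ := hP _ h1
  have h2 : InP Lᶜ := ⟨fun x => V (bits (f x)), H642R2.TMSim.polyTime_comp hV hf, fun x =>
    (hfL x).trans (h _ (hpr x))⟩
  have h3 := H25R3.Cones.inP_compl h2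
  rwa [compl_compl] at h3

end Pool.Agent.Q216.SM
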