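import Pool.Agent.Q216.SM.Ex

/-!
# The pattern lemma

`-∏_{u ∈ U} x_u ∏_{v ∈ V} (1 - x_v)` becomes expressible by binary submodular functions after
subtracting a multiple of the products of pairs.
-/

set_option autoImplicit false

namespace Pool.Agent.Q216.SM

theorem sum_min_step (M t : ℕ) (h1 : 1 ≤ t) (h2 : t ≤ M + 1) :
    ∑ j ∈ Finset.range M, min 0 ((j : ℚ) + 2 - ((t + 1 : ℕ) : ℚ)) =
      ∑ j ∈ Finset.range M, min 0 ((j : ℚ) + 2 - (t : ℚ)) - ((t : ℚ) - 1) := by
  have h3 : ∀ j ∈ Finset.range M, min 0 ((j : ℚ) + 2 - ((t + 1 : ℕ) : ℚ)) =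
      min 0 ((j : ℚ) + 2 - (t : ℚ)) - (if j + 2 ≤ t then 1 else 0) := by
    intro j _
    split_ifs with h
    · have : ((j : ℚ) + 2) ≤ t := by exact_mod_cast h
      rw [min_eq_right (by push_cast; linarith), min_eq_right (by linarith)]
      push_cast
      ring
    · have : ((t : ℚ) + 1) ≤ (j : ℚ) + 2 := by
        have : t + 1 ≤ j + 2 := by omega
        exact_mod_cast this
      rw [min_eq_left (by push_cast; linarith), min_eq_left (by linarith)]
      ring
  rw [Finset.sum_congr rfl h3, Finset.sum_sub_distrib]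
  congr 1
  rw [← Finset.sum_filter, Finset.sum_const, nsmul_eq_mul, mul_one]
  have h4 : (Finset.range M).filter (fun j => j + 2 ≤ t) = Finset.range (t - 1) := by
    ext j
    simp only [Finset.mem_filter, Finset.mem_range]
    omega
  rw [h4, Finset.card_range]
  push_cast [Nat.cast_sub h1]
  ring

theorem sum_min (M : ℕ) : ∀ t : ℕ, 1 ≤ t → t ≤ M + 2 →
    ∑ j ∈ Finset.range M, min 0 ((j : ℚ) + 2 - (t : ℚ)) = -(((t : ℚ) - 1) * (t - 2) / 2) := by
  intro t h1
  induction t, h1 using Nat.le_induction with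
  | base =>
    intro _
    rw [Finset.sum_eq_zero]
    · norm_num
    · intro j _
      have : (0 : ℚ) ≤ j := Nat.cast_nonneg j
      exact min_eq_left (by push_cast; linarith)
  | succ t h1 ih =>
    intro h2
    rw [sum_min_step M t h1 (by omega), ih (by omega)]
    push_cast
    ring

variable {V : Type}

/-- number of ones in a set -/
def ones (S : Finset V) (x : V → Bool) : ℕ := (S.filter fun v => x v = true).card

theorem ones_le (S : Finset V) (x : V → Bool) : ones S x ≤ S.card := Finset.card_filter_le _ _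

theorem sum_bv (S : Finset V) (x : V → Bool) : ∑ v ∈ S, bv (x v) = (ones S x : ℚ) := by
  unfold ones bv
  rw [Finset.sum_boole]

theorem prod_bv (S : Finset V) (x : V → Bool) :
    ∏ v ∈ S, bv (x v) = if ones S x = S.card then 1 else 0 := by
  unfold ones bv
  split_ifs with h
  · rw [Finset.card_filter_eq_iff] at h
    exact Finset.prod_eq_one fun v hv => by rw [if_pos (h v hv)]
  · rw [Finset.card_filter_eq_iff] at h
    push Not at h
    obtain ⟨v, hv, h⟩ := h
    exact Finset.prod_eq_zero hv (by rw [if_neg h])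

theorem prod_one_sub_bv (S : Finset V) (x : V → Bool) :
    ∏ v ∈ S, (1 - bv (x v)) = if ones S x = 0 then 1 else 0 := by
  unfold ones bv
  split_ifs with h
  · rw [Finset.card_eq_zero, Finset.filter_eq_empty_iff] at h
    exact Finset.prod_eq_one fun v hv => by rw [if_neg (h hv)]; ring
  · rw [Finset.card_eq_zero, Finset.filter_eq_empty_iff] at h
    push Not at h
    obtain ⟨v, hv, h⟩ := h
    exact Finset.prod_eq_zero hv (by rw [if_pos h]; ring)

/-- The pattern lemma. -/
theorem Ex.pattern [DecidableEq V] (U S : Finset V) (hd : Disjoint U S) (hU : U.Nonempty) (K : ℚ)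
    (hK1 : 1 ≤ K) (hK : (U.card : ℚ) - 1 ≤ K) :
    Ex (fun x : V → Bool => -((∏ u ∈ U, bv (x u)) * ∏ v ∈ S, (1 - bv (x v))) -
      K * ((∑ u ∈ U, bv (x u)) * (∑ v ∈ S, bv (x v)) +
        (∑ v ∈ S, bv (x v)) * ((∑ v ∈ S, bv (x v)) - 1) / 2)) := by
  have hU1 : (1 : ℚ) ≤ U.card := by exact_mod_cast hU.card_pos
  -- the four parts
  have hA : Ex (fun x : V → Bool => (∑ v ∈ S, (U.card : ℚ) * bv (x v)) +
      min 0 (((U.card : ℚ) - 1) - ∑ v ∈ U ∪ S, (if v ∈ U then 1 else (U.card : ℚ)) * bv (x v))) :=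
    (Ex.sum S _ fun v _ => Ex.lin _ v).add (Ex.gadget _ _ (fun v _ => by
      split_ifs
      · exact zero_le_one
      · linarith) _)
  have hB : Ex (fun x : V → Bool => ∑ u ∈ U, (-((K - 1) * ((∑ w ∈ {u}, bv (x w)) *
      ∑ v ∈ S, bv (x v))) + min 0 ((1 + (S.card : ℚ)) -
        ∑ v ∈ insert u S, (if v = u then (S.card : ℚ) else 1) * bv (x v)))) :=
    Ex.sum U _ fun u _ => (Ex.neg_pairs_mul (by linarith) {u} S).add (Ex.gadget _ _ (fun v _ => by
      split_ifs
      · exact Nat.cast_nonneg _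
      · exact zero_le_one) _)
  have hC : Ex (fun x : V → Bool => (∑ v ∈ S, (-((U.card : ℚ) - 1)) * bv (x v)) +
      ((U.card : ℚ) - 1) * ∑ j ∈ Finset.range S.card, min 0 (((j : ℚ) + 2) -
        ∑ v ∈ S, 1 * bv (x v))) :=
    (Ex.sum S _ fun v _ => Ex.lin _ v).add ((Ex.sum _ _ fun j _ =>
      Ex.gadget _ _ (fun v _ => zero_le_one) _).smul (by linarith))
  have hD : Ex (fun x : V → Bool => -(((K - ((U.card : ℚ) - 1)) / 2) * ((∑ v ∈ S, bv (x v)) *
      ∑ v ∈ S, bv (x v))) + ∑ v ∈ S, ((K - ((U.card : ℚ) - 1)) / 2) * bv (x v)) :=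
    (Ex.neg_pairs_mul (by linarith) S S).add (Ex.sum S _ fun v _ => Ex.lin _ v)
  refine Ex.congr (((hA.add hB).add hC).add hD) fun x => ?_
  have hs := sum_bv U x
  have ht := sum_bv S x
  have hsl := ones_le U x
  have htl := ones_le S x
  have e1 : ∑ v ∈ U ∪ S, (if v ∈ U then 1 else (U.card : ℚ)) * bv (x v) =
      (ones U x : ℚ) + U.card * (ones S x : ℚ) := by
    rw [Finset.sum_union hd, ← hs, ← ht, Finset.mul_sum]
    congr 1
    · exact Finset.sum_congr rfl fun v hv => by rw [if_pos hv, one_mul]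
    · exact Finset.sum_congr rfl fun v hv => by rw [if_neg (Finset.disjoint_right.1 hd hv)]
  have e2 : ∀ u ∈ U, ∑ v ∈ insert u S, (if v = u then (S.card : ℚ) else 1) * bv (x v) =
      S.card * bv (x u) + (ones S x : ℚ) := by
    intro u hu
    have hu' := Finset.disjoint_left.1 hd hu
    rw [Finset.sum_insert hu', if_pos rfl, ← ht]
    congr 1
    refine Finset.sum_congr rfl fun v hv => ?_
    have hne : v ≠ u := by
      rintro rfl
      exact hu' hv
    rw [if_neg hne, one_mul]
  have e5 : ∑ u ∈ U, (-((K - 1) * ((∑ w ∈ {u}, bv (x w)) * ∑ v ∈ S, bv (x v))) +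
      min 0 ((1 + (S.card : ℚ)) - ∑ v ∈ insert u S, (if v = u then (S.card : ℚ) else 1) *
        bv (x v))) = ∑ u ∈ U, (-((K - 1) * (bv (x u) * (ones S x : ℚ))) +
      min 0 ((1 + (S.card : ℚ)) - (S.card * bv (x u) + (ones S x : ℚ)))) :=
    Finset.sum_congr rfl fun u hu => by rw [Finset.sum_singleton, e2 u hu, ht]
  rw [e1, e5]
  simp only [one_mul, ← Finset.mul_sum]
  rw [ht, prod_bv, prod_one_sub_bv, hs]
  generalize hsn : ones U x = s at *
  generalize htn : ones S x = t at *
  have hsQ : (s : ℚ) ≤ U.card := by exact_mod_cast hsl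
  have htQ : (t : ℚ) ≤ S.card := by exact_mod_cast htl
  have hs0 : (0 : ℚ) ≤ s := Nat.cast_nonneg s
  rcases Nat.eq_zero_or_pos t with h0 | hpos
  · subst h0
    have e3 : ∀ u ∈ U, (-((K - 1) * (bv (x u) * ((0 : ℕ) : ℚ))) + min 0 ((1 + (S.card : ℚ)) -
        (S.card * bv (x u) + ((0 : ℕ) : ℚ)))) = 0 := by
      intro u _
      have h1 : bv (x u) ≤ 1 := by cases x u <;> simp
      have h2 : (0 : ℚ) ≤ S.card := Nat.cast_nonneg _
      rw [min_eq_left]
      · push_cast
        ring
      · push_cast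
        nlinarith
    have e4 : ∀ j ∈ Finset.range S.card, min 0 (((j : ℚ) + 2) - ((0 : ℕ) : ℚ)) = 0 := by
      intro j _
      have : (0 : ℚ) ≤ j := Nat.cast_nonneg j
      exact min_eq_left (by push_cast; linarith)
    rw [Finset.sum_eq_zero e3, Finset.sum_eq_zero e4]
    simp only [Nat.cast_zero, if_true, mul_one, mul_zero, add_zero, zero_mul]
    split_ifs with h
    · rw [h, min_eq_right (by linarith)]
      ring
    · have : s + 1 ≤ U.card := by omega
      have : (s : ℚ) + 1 ≤ U.card := by exact_mod_cast this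
      rw [min_eq_left (by linarith)]
      ring
  · have ht1 : (1 : ℚ) ≤ t := by exact_mod_cast hpos
    have e3 : ∀ u ∈ U, (-((K - 1) * (bv (x u) * (t : ℚ))) + min 0 ((1 + (S.card : ℚ)) -
        (S.card * bv (x u) + (t : ℚ)))) = (1 - K * t) * bv (x u) := by
      intro u _
      cases x u
      · rw [min_eq_left]
        · simp
        · simp
          linarith
      · rw [min_eq_right]
        · simp
          ring
        · simp
          linarith
    rw [Finset.sum_congr rfl e3, ← Finset.mul_sum, hs, sum_min _ t hpos (by omega),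
      if_neg (by omega : ¬ t = 0), min_eq_right (by nlinarith)]
    ring

end Pool.Agent.Q216.SM
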