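import Pool.Agent.Q216.SM.Red

/-!
# The reduction is computable in polynomial time, and its instances are valid
-/

set_option autoImplicit false

namespace Pool.Agent.Q216.SM

open Pool.Agent.NPC Pool.Agent.NPC.R671.SS

variable {α : Type} [TEnc α]

theorem poly_natQ {f : α → ℕ} (hf : NPC.Poly f) : NPC.Poly (fun a => ((f a : ℕ) : ℚ)) :=
  NPC.Poly.of_toT ((Poly.toT' (NPC.Poly.pair (NPC.Poly.natCast_int hf) (NPC.Poly.const 1))).congr fun a => by
    change toT (((f a : ℕ) : ℤ), 1) = toT (((f a : ℕ) : ℚ).num, ((f a : ℕ) : ℚ).den)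
    simp)

theorem poly_negZ {f : α → ℕ} (hf : NPC.Poly f) : NPC.Poly (fun a => (-((f a : ℕ) : ℤ))) :=
  NPC.Poly.of_toT ((Poly.toT' (NPC.Poly.pair (NPC.Poly.decide_lt (NPC.Poly.const 0) hf) hf)).congr fun a => by
    change toT (decide (0 < f a), f a) = toT (decide ((-((f a : ℕ) : ℤ)) < 0),
      (-((f a : ℕ) : ℤ)).natAbs)
    have h : decide ((-((f a : ℕ) : ℤ)) < 0) = decide (0 < f a) := by
      rw [decide_eq_decide]
      omega
    rw [h]
    simp)

theorem poly_negQ {f : α → ℕ} (hf : NPC.Poly f) : NPC.Poly (fun a => (-((f a : ℕ) : ℚ))) :=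
  NPC.Poly.of_toT ((Poly.toT' (NPC.Poly.pair (poly_negZ hf) (NPC.Poly.const 1))).congr fun a => by
    change toT ((-((f a : ℕ) : ℤ)), 1) = toT ((-((f a : ℕ) : ℚ)).num, (-((f a : ℕ) : ℚ)).den)
    simp)

theorem poly_two_pow_length {β : Type} [TEnc β] {l : α → List β} (hl : NPC.Poly l) :
    NPC.Poly (fun a => 2 ^ (l a).length) := by
  have h : NPC.Poly (fun a => valB ((l a).map (fun _ => false) ++ [true])) :=
    NPC.Poly.valBits (NPC.Poly.append (NPC.Poly.map hl (NPC.Poly.const false)) (NPC.Poly.const [true]))
  refine h.congr fun a => ?_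
  rw [List.map_const', valB_append]
  have : ∀ n, valB (List.replicate n false) = 0 := by
    intro n
    induction n with
    | zero => rfl
    | succ n ih => rw [List.replicate_succ, valB_cons, ih]; rfl
  rw [this, List.length_replicate]
  simp

attribute [local fun_prop] poly_natQ poly_negQ poly_two_pow_length NPC.Poly.range_length

theorem poly_base : NPC.Poly base := by
  unfold base
  fun_prop

theorem poly_Bq : NPC.Poly (fun x : List ℕ × ℕ => Bq x.1 x.2) := by
  have h : NPC.Poly (fun x : List ℕ × ℕ => (x.1.length + 1) * (2 ^ x.1.length *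
      ((x.2 + x.1.sum) * (x.2 + x.1.sum)))) := by fun_prop
  exact h.congr fun x => by unfold Bq; rw [sq]

theorem poly_outer : NPC.Poly (fun p : (List ℕ × ℕ) × ℕ =>
    outer p.1.1 p.1.2 (Bq p.1.1 p.1.2) p.2) := by
  have hB : NPC.Poly (fun p : (List ℕ × ℕ) × ℕ => Bq p.1.1 p.1.2) :=
    poly_Bq.comp (NPC.Poly.fst NPC.Poly.id)
  unfold outer
  refine NPC.Poly.append ?_ (NPC.Poly.flatMap (l := fun p : (List ℕ × ℕ) × ℕ =>
    (List.range p.1.1.length).filter fun s => decide (s < p.2))
    (F := fun p s => inner p.1.1 (Bq p.1.1 p.1.2) p.2 s) ?_ ?_)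
  · fun_prop
  · fun_prop
  · unfold inner
    have hB' : NPC.Poly (fun p : ((List ℕ × ℕ) × ℕ) × ℕ => Bq p.1.1.1 p.1.1.2) :=
      poly_Bq.comp (NPC.Poly.fst (NPC.Poly.fst NPC.Poly.id))
    fun_prop

theorem poly_red : NPC.Poly red := by
  unfold red
  refine NPC.Poly.pair (by fun_prop) (NPC.Poly.append (poly_base.comp (NPC.Poly.snd NPC.Poly.id))
    (NPC.Poly.flatMap (l := fun x : List ℕ × ℕ => List.range x.1.length)
      (F := fun x t => outer x.1 x.2 (Bq x.1 x.2) t) (by fun_prop) poly_outer))

/-! ### Validity -/

theorem mem_red {x : List ℕ × ℕ} {t : List ℕ × ℚ} (h : t ∈ (red x).2) :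
    t ∈ base x.2 ∨ ∃ k < x.1.length, (t = ([2, 3, 4 + k],
        ((x.1.getD k 0 * (2 * x.2 - x.1.getD k 0) : ℕ) : ℚ)) ∨
      t = ([2, 4 + k], -((Bq x.1 x.2 : ℕ) : ℚ)) ∨ t = ([3, 4 + k], -((Bq x.1 x.2 : ℕ) : ℚ)) ∨
      ∃ s < k, (t = ([2, 3, 4 + s, 4 + k], -((2 * (x.1.getD s 0 * x.1.getD k 0) : ℕ) : ℚ)) ∨
        t = ([4 + s, 4 + k], -((Bq x.1 x.2 : ℕ) : ℚ)))) := by
  unfold red at h
  simp only [List.mem_append, List.mem_flatMap, List.mem_range] at h
  rcases h with h | ⟨k, hk, h⟩
  · exact Or.inl h
  · right
    refine ⟨k, hk, ?_⟩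
    unfold outer at h
    simp only [List.cons_append, List.nil_append, List.mem_cons, List.mem_flatMap, List.mem_filter,
      List.mem_range, decide_eq_true_eq] at h
    rcases h with h | h | h | ⟨s, hs, h⟩
    · exact Or.inl h
    · exact Or.inr (Or.inl h)
    · exact Or.inr (Or.inr (Or.inl h))
    · refine Or.inr (Or.inr (Or.inr ⟨s, hs.2, ?_⟩))
      unfold inner at h
      simpa using h

theorem Bq_pos {w : List ℕ} {W : ℕ} (hW : 0 < W) : 0 < Bq w W := by
  unfold Bq
  positivity

theorem red_nodup (w : List ℕ) (W : ℕ) : ((red (w, W)).2.map Prod.fst).Nodup := by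
  unfold red
  rw [List.map_append, List.map_flatMap]
  have hin : ∀ t, ((outer w W (Bq w W) t).map Prod.fst).Nodup := by
    intro t
    unfold outer
    rw [List.map_append, List.map_flatMap]
    have h1 : (((List.range w.length).filter fun s => decide (s < t)).flatMap
        fun s => (inner w (Bq w W) t s).map Prod.fst).Nodup := by
      rw [List.nodup_flatMap]
      refine ⟨fun s _ => ?_, ?_⟩
      · simp [inner]
      · have hnd : ((List.range w.length).filter fun s => decide (s < t)).Nodup :=
          (List.nodup_range).filter _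
        refine List.Pairwise.imp ?_ hnd
        intro a b hab
        simp only [Function.onFun, inner, List.map_cons, List.map_nil]
        intro l hl hl'
        simp only [List.mem_cons, List.not_mem_nil, or_false] at hl hl'
        rcases hl with rfl | rfl <;> rcases hl' with h | h <;> simp at h <;> omega
    rw [List.nodup_append]
    refine ⟨by simp, h1, ?_⟩
    intro a ha b hb
    simp only [List.map_cons, List.map_nil, List.mem_cons, List.not_mem_nil, or_false] at ha
    simp only [List.mem_flatMap, List.mem_filter, List.mem_range, decide_eq_true_eq, inner,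
      List.map_cons, List.map_nil, List.mem_cons, List.not_mem_nil, or_false] at hb
    obtain ⟨s, hs, hb⟩ := hb
    rintro rfl
    rcases ha with rfl | rfl | rfl <;> rcases hb with h | h <;> simp at h <;> omega
  rw [List.nodup_append]
  refine ⟨by simp [base], ?_, ?_⟩
  · rw [List.nodup_flatMap]
    refine ⟨fun t _ => hin t, List.Pairwise.imp ?_ List.nodup_range⟩
    intro a b hab
    simp only [Function.onFun, outer, List.map_append, List.map_flatMap, inner, List.map_cons,
      List.map_nil]
    intro l hl hl'
    simp only [List.mem_append, List.mem_cons, List.not_mem_nil, or_false, List.mem_flatMap,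
      List.mem_filter, List.mem_range, decide_eq_true_eq] at hl hl'
    rcases hl with (rfl | rfl | rfl) | ⟨s, hs, rfl | rfl⟩ <;>
      rcases hl' with (h | h | h) | ⟨s', hs', h | h⟩ <;> simp at h <;> omega
  · intro a ha b hb
    simp only [base, List.map_cons, List.map_nil, List.mem_cons, List.not_mem_nil, or_false] at ha
    simp only [List.mem_flatMap, List.mem_range, outer, List.map_append, List.map_flatMap, inner,
      List.map_cons, List.map_nil, List.mem_append, List.mem_cons, List.not_mem_nil, or_false,
      List.mem_filter, decide_eq_true_eq] at hb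
    obtain ⟨t, ht, hb⟩ := hb
    rintro rfl
    rcases hb with (h | h | h) | ⟨s', hs', h | h⟩ <;> subst h <;> simp at ha <;> omega

theorem red_valid (w : List ℕ) (W : ℕ) (hw : ∀ a ∈ w, 0 < a ∧ a < W) (hW : 0 < W) :
    Inst.Valid (red (w, W)) := by
  have hB : ((Bq w W : ℕ) : ℚ) ≠ 0 := by
    have := Bq_pos (w := w) hW
    exact_mod_cast this.ne'
  have hget : ∀ k < w.length, 0 < w.getD k 0 ∧ w.getD k 0 < W := by
    intro k hk
    rw [List.getD_eq_getElem _ _ hk]
    exact hw _ (List.getElem_mem hk)
  refine ⟨?_, ⟨([0, 1, 2, 3], -1), ?_, rfl⟩, red_nodup w W⟩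
  · intro t ht
    rcases mem_red ht with h | ⟨k, hk, h | h | h | ⟨s, hs, h | h⟩⟩
    · have hn : ∀ i ∈ ([0, 1, 2, 3] : List ℕ), i < 4 + w.length := by
        intro i hi
        simp only [List.mem_cons, List.not_mem_nil, or_false] at hi
        omega
      have hWW : (-((W * W : ℕ) : ℚ)) ≠ 0 := by
        have : W * W ≠ 0 := by positivity
        rw [neg_ne_zero]
        exact_mod_cast this
      simp only [base, List.mem_cons, List.not_mem_nil, or_false] at h
      rcases h with rfl | rfl | rfl | rfl | rfl | rfl | rfl | rfl | rfl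
      all_goals
        refine ⟨by simp, ?_, by simp, ?_⟩
        · intro i hi
          apply hn
          simp only [List.mem_cons, List.not_mem_nil, or_false] at hi ⊢
          omega
        · first
          | exact hWW
          | norm_num
    · subst h
      refine ⟨by simp; omega, ?_, by simp, ?_⟩
      · intro i hi
        simp only [List.mem_cons, List.not_mem_nil, or_false] at hi
        simp only [red] at hk ⊢
        omega
      · obtain ⟨h1, h2⟩ := hget k hk
        have : w.getD k 0 * (2 * W - w.getD k 0) ≠ 0 := by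
          have : 0 < 2 * W - w.getD k 0 := by omega
          positivity
        simp only
        exact_mod_cast this
    · subst h
      refine ⟨by simp; omega, ?_, by simp, by simpa using hB⟩
      intro i hi
      simp only [List.mem_cons, List.not_mem_nil, or_false] at hi
      simp only [red] at hk ⊢
      omega
    · subst h
      refine ⟨by simp; omega, ?_, by simp, by simpa using hB⟩
      intro i hi
      simp only [List.mem_cons, List.not_mem_nil, or_false] at hi
      simp only [red] at hk ⊢
      omega
    · subst h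
      refine ⟨by simp; omega, ?_, by simp, ?_⟩
      · intro i hi
        simp only [List.mem_cons, List.not_mem_nil, or_false] at hi
        simp only [red] at hk ⊢
        omega
      · obtain ⟨h1, h2⟩ := hget k hk
        obtain ⟨h3, h4⟩ := hget s (by simp only at hk; omega)
        have : 2 * (w.getD s 0 * w.getD k 0) ≠ 0 := by positivity
        simp only [ne_eq, neg_eq_zero]
        exact_mod_cast this
    · subst h
      refine ⟨by simp; omega, ?_, by simp, by simpa using hB⟩
      intro i hi
      simp only [List.mem_cons, List.not_mem_nil, or_false] at hi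
      simp only [red] at hk ⊢
      omega
  · simp [red, base]

end Pool.Agent.Q216.SM
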