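import Pool.Agent.Q216.SM.Fun
import Pool.Agent.H671R2.SubsetSum
import Pool.Agent.H673R2.HardOn

/-!
# The reduction from subset sum
-/

set_option autoImplicit false

namespace Pool.Agent.Q216.SM

open Pool.Agent.NPC Pool.Agent.NPC.R671.SS

/-- the large coefficient -/
def Bq (w : List ℕ) (W : ℕ) : ℕ := (w.length + 1) * (2 ^ w.length * (W + w.sum) ^ 2)

def base (W : ℕ) : List (List ℕ × ℚ) :=
  [([0, 1], -1), ([0, 1, 2], 1), ([0, 1, 3], 1), ([0, 1, 2, 3], -1), ([0, 2], -1), ([0, 3], -1),
    ([1, 2], -1), ([1, 3], -1), ([2, 3], -((W * W : ℕ) : ℚ))]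

def inner (w : List ℕ) (B t s : ℕ) : List (List ℕ × ℚ) :=
  [([2, 3, 4 + s, 4 + t], -((2 * (w.getD s 0 * w.getD t 0) : ℕ) : ℚ)), ([4 + s, 4 + t], -(B : ℚ))]

def outer (w : List ℕ) (W B t : ℕ) : List (List ℕ × ℚ) :=
  [([2, 3, 4 + t], ((w.getD t 0 * (2 * W - w.getD t 0) : ℕ) : ℚ)), ([2, 4 + t], -(B : ℚ)),
    ([3, 4 + t], -(B : ℚ))] ++
    ((List.range w.length).filter fun s => decide (s < t)).flatMap (inner w B t)

/-- the polynomial of the reduction -/
def red (x : List ℕ × ℕ) : Inst :=
  (4 + x.1.length,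
    base x.2 ++ (List.range x.1.length).flatMap (outer x.1 x.2 (Bq x.1 x.2)))

theorem sum_range_filter (n : ℕ) (p : ℕ → Bool) (g : ℕ → List (List ℕ × ℚ))
    (h : List ℕ × ℚ → ℚ) :
    ((((List.range n).filter p).flatMap g).map h).sum =
      ∑ s ∈ (Finset.range n).filter (fun s => p s = true), ((g s).map h).sum := by
  induction n with
  | zero => simp
  | succ n ih =>
    rw [List.range_succ, List.filter_append, List.flatMap_append, List.map_append, List.sum_append,
      ih, Finset.range_add_one, Finset.filter_insert]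
    by_cases hn : p n = true
    · rw [if_pos hn, Finset.sum_insert (by simp), List.filter_singleton, hn, cond_true,
        List.flatMap_singleton]
      ring
    · rw [if_neg hn, List.filter_singleton, Bool.eq_false_of_not_eq_true hn, cond_false]
      simp

theorem sum_range_flatMap (n : ℕ) (g : ℕ → List (List ℕ × ℚ)) (h : List ℕ × ℚ → ℚ) :
    (((List.range n).flatMap g).map h).sum = ∑ s ∈ Finset.range n, ((g s).map h).sum := by
  have := sum_range_filter n (fun _ => true) g h
  simpa using this

theorem sq_id (n : ℕ) (a : ℕ → ℚ) : (∑ t ∈ Finset.range n, a t) ^ 2 =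
    ∑ t ∈ Finset.range n, a t * a t + 2 * ∑ t ∈ Finset.range n, ∑ s ∈ Finset.range t, a s * a t := by
  induction n with
  | zero => simp
  | succ n ih =>
    rw [Finset.sum_range_succ, add_sq, ih, Finset.sum_range_succ, Finset.sum_range_succ,
      ← Finset.sum_mul]
    ring

theorem val_x {N : ℕ} (x : Fin (4 + N) → Bool) (i : Fin 4) : val x i.val = bv (x (xv i)) := by
  unfold val bv
  rw [dif_pos (by omega : i.val < 4 + N)]
  rfl

theorem val_y {N : ℕ} (x : Fin (4 + N) → Bool) (t : Fin N) :
    val x (4 + t.val) = bv (x (yv t)) := by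
  unfold val bv
  rw [dif_pos (by omega : 4 + t.val < 4 + N)]
  rfl

theorem val_sq {N : ℕ} (x : Fin N → Bool) (i : ℕ) : val x i * val x i = val x i := by
  unfold val
  split_ifs <;> norm_num

/-- the penalty -/
def pen (w : List ℕ) (W : ℕ) (T : Finset (Fin w.length)) : ℚ :=
  ((W : ℚ) - ∑ t ∈ T, (w.get t : ℚ)) ^ 2

theorem eval_red (w : List ℕ) (W : ℕ) (hw : ∀ a ∈ w, a ≤ 2 * W) (x : Fin (4 + w.length) → Bool) :
    Inst.eval (red (w, W)) x = h4 x +
      (-(bv (x (xv 2)) * bv (x (xv 3)) * pen w W (supp x)) - (Bq w W : ℚ) * PS x) := by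
  unfold Inst.eval red
  simp only [List.map_append, List.sum_append]
  rw [sum_range_flatMap]
  have v0 : val x 0 = bv (x (xv 0)) := val_x x 0
  have v1 : val x 1 = bv (x (xv 1)) := val_x x 1
  have v2 : val x 2 = bv (x (xv 2)) := val_x x 2
  have v3 : val x 3 = bv (x (xv 3)) := val_x x 3
  generalize hB : Bq w W = B
  set Y : ℕ → ℚ := fun t => val x (4 + t) with hY
  have hbase : ((base W).map fun t => t.2 * (t.1.map (val x)).prod).sum =
      h4 x - (W : ℚ) ^ 2 * (bv (x (xv 2)) * bv (x (xv 3))) := by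
    unfold base h4
    simp only [List.map_cons, List.map_nil, List.sum_cons, List.sum_nil, List.prod_cons,
      List.prod_nil, v0, v1, v2, v3]
    push_cast
    ring
  have hcoef : ∀ t, ((w.getD t 0 * (2 * W - w.getD t 0) : ℕ) : ℚ) =
      (w.getD t 0 : ℚ) * (2 * W - w.getD t 0) := by
    intro t
    have h : w.getD t 0 ≤ 2 * W := by
      rcases lt_or_ge t w.length with h | h
      · rw [List.getD_eq_getElem _ _ h]
        exact hw _ (List.getElem_mem h)
      · rw [List.getD_eq_default _ _ h]
        exact Nat.zero_le _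
    rw [Nat.cast_mul, Nat.cast_sub h]
    push_cast
    ring
  have houter : ∀ t ∈ Finset.range w.length,
      (((outer w W B t)).map fun t => t.2 * (t.1.map (val x)).prod).sum =
      (bv (x (xv 2)) * bv (x (xv 3))) * ((w.getD t 0 : ℚ) * (2 * W - w.getD t 0) * Y t) -
        B * ((bv (x (xv 2)) + bv (x (xv 3))) * Y t) +
      (-(2 * (bv (x (xv 2)) * bv (x (xv 3)))) *
        (∑ s ∈ Finset.range t, (w.getD s 0 * Y s) * (w.getD t 0 * Y t)) -
        B * ∑ s ∈ Finset.range t, Y s * Y t) := by
    intro t ht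
    rw [Finset.mem_range] at ht
    unfold outer
    rw [List.map_append, List.sum_append, sum_range_filter]
    have hf : (Finset.range w.length).filter (fun s => decide (s < t) = true) =
        Finset.range t := by
      ext s
      simp only [Finset.mem_filter, Finset.mem_range, decide_eq_true_eq]
      omega
    rw [hf]
    congr 1
    · simp only [List.map_cons, List.map_nil, List.sum_cons, List.sum_nil, List.prod_cons,
        List.prod_nil, v2, v3, hcoef]
      simp only [hY]
      ring
    · rw [Finset.mul_sum, Finset.mul_sum, ← Finset.sum_sub_distrib]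
      refine Finset.sum_congr rfl fun s _ => ?_
      unfold inner
      simp only [List.map_cons, List.map_nil, List.sum_cons, List.sum_nil, List.prod_cons,
        List.prod_nil, v2, v3]
      simp only [hY]
      push_cast
      ring
  rw [hbase, Finset.sum_congr rfl houter]
  have hYsq : ∀ t, Y t * Y t = Y t := fun t => val_sq x _
  have hys : ys x = ∑ t ∈ Finset.range w.length, Y t := by
    unfold ys
    rw [Finset.sum_range]
    exact Finset.sum_congr rfl fun t _ => (val_y x t).symm
  have hsupp : ∑ t ∈ supp x, (w.get t : ℚ) = ∑ t ∈ Finset.range w.length, (w.getD t 0 : ℚ) * Y t := by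
    rw [Finset.sum_range]
    unfold supp
    rw [Finset.sum_filter]
    refine Finset.sum_congr rfl fun t _ => ?_
    simp only [hY]
    rw [val_y, List.getD_eq_getElem _ _ t.2]
    unfold bv
    split_ifs <;> simp
  have hq1 := sq_id w.length (fun t => (w.getD t 0 : ℚ) * Y t)
  have hq2 := sq_id w.length Y
  have hq3 : ∑ t ∈ Finset.range w.length, ((w.getD t 0 : ℚ) * Y t) * ((w.getD t 0 : ℚ) * Y t) =
      ∑ t ∈ Finset.range w.length, (w.getD t 0 : ℚ) * (w.getD t 0 : ℚ) * Y t := by
    refine Finset.sum_congr rfl fun t _ => ?_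
    have := hYsq t
    linear_combination (w.getD t 0 : ℚ) * (w.getD t 0 : ℚ) * this
  have hq4 : ∑ t ∈ Finset.range w.length, Y t * Y t = ∑ t ∈ Finset.range w.length, Y t :=
    Finset.sum_congr rfl fun t _ => hYsq t
  have hq5 : ∑ t ∈ Finset.range w.length, (w.getD t 0 : ℚ) * (2 * W - w.getD t 0) * Y t =
      2 * W * (∑ t ∈ Finset.range w.length, (w.getD t 0 : ℚ) * Y t) -
        ∑ t ∈ Finset.range w.length, (w.getD t 0 : ℚ) * (w.getD t 0 : ℚ) * Y t := by
    rw [Finset.mul_sum, ← Finset.sum_sub_distrib]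
    exact Finset.sum_congr rfl fun t _ => by ring
  rw [Finset.sum_add_distrib, Finset.sum_sub_distrib, Finset.sum_sub_distrib, ← Finset.mul_sum,
    ← Finset.mul_sum, ← Finset.mul_sum, ← Finset.mul_sum, ← Finset.mul_sum, hq5]
  unfold PS pen
  rw [hys, hsupp]
  rw [hq3] at hq1
  rw [hq4] at hq2
  linear_combination (bv (x (xv 2)) * bv (x (xv 3))) * hq1 + (B / 2 : ℚ) * hq2

/-! ### Subset sum and sets of indices -/

theorem subsetSum_iff (w : List ℕ) (W : ℕ) :
    SubsetSum (w, W) ↔ ∃ T : Finset (Fin w.length), ∑ t ∈ T, w.get t = W := by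
  constructor
  · rintro ⟨s, hs, hsum⟩
    have hsum' : s.sum = W := hsum
    obtain ⟨f, hf⟩ := List.sublist_iff_exists_fin_orderEmbedding_get_eq.1 hs
    refine ⟨Finset.univ.map f.toEmbedding, ?_⟩
    rw [Finset.sum_map]
    simp only [RelEmbedding.coe_toEmbedding, ← hf]
    rw [← hsum']
    conv_rhs => rw [← List.ofFn_get s, List.sum_ofFn]
  · rintro ⟨T, hT⟩
    refine ⟨((List.finRange w.length).filter fun t => decide (t ∈ T)).map w.get, ?_, ?_⟩
    · have h1 : (List.finRange w.length).map w.get = w := List.map_get_finRange w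
      have h2 := (List.filter_sublist (p := fun t => decide (t ∈ T))
        (l := List.finRange w.length)).map w.get
      rwa [h1] at h2
    · rw [← hT]
      have h3 : (((List.finRange w.length).filter fun t => decide (t ∈ T)).map w.get).sum =
          ∑ t ∈ ((List.finRange w.length).filter fun t => decide (t ∈ T)).toFinset, w.get t :=
        (List.sum_toFinset _ ((List.nodup_finRange _).filter _)).symm
      rw [h3]
      congr 1
      ext t
      simp

theorem pen_nonneg (w : List ℕ) (W : ℕ) (T : Finset (Fin w.length)) : 0 ≤ pen w W T := sq_nonneg _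

theorem pen_pos (w : List ℕ) (W : ℕ) (h : ¬ SubsetSum (w, W)) (T : Finset (Fin w.length)) :
    1 ≤ pen w W T := by
  rw [subsetSum_iff] at h
  push Not at h
  have h1 := h T
  have h2 : ((W : ℤ) - ∑ t ∈ T, (w.get t : ℤ)) ≠ 0 := by
    intro h3
    apply h1
    have h4 : (W : ℤ) = ∑ t ∈ T, (w.get t : ℤ) := by linarith
    have h5 : ((∑ t ∈ T, w.get t : ℕ) : ℤ) = (W : ℤ) := by
      push_cast
      rw [h4]
    exact_mod_cast h5
  have h3 : (1 : ℤ) ≤ ((W : ℤ) - ∑ t ∈ T, (w.get t : ℤ)) ^ 2 := by
    have := sq_pos_of_ne_zero h2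
    omega
  unfold pen
  exact_mod_cast h3

theorem pen_le (w : List ℕ) (W : ℕ) (T : Finset (Fin w.length)) :
    pen w W T ≤ ((W : ℚ) + w.sum) ^ 2 := by
  unfold pen
  have h1 : (0 : ℚ) ≤ ∑ t ∈ T, (w.get t : ℚ) := Finset.sum_nonneg fun t _ => Nat.cast_nonneg _
  have h2 : ∑ t ∈ T, (w.get t : ℚ) ≤ w.sum := by
    calc ∑ t ∈ T, (w.get t : ℚ) ≤ ∑ t : Fin w.length, (w.get t : ℚ) :=
          Finset.sum_le_sum_of_subset_of_nonneg (Finset.subset_univ T)
            fun t _ _ => Nat.cast_nonneg _
      _ = w.sum := by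
          conv_rhs => rw [← List.ofFn_get w, List.sum_ofFn]
          push_cast
          rfl
  have h3 : (0 : ℚ) ≤ W := Nat.cast_nonneg W
  nlinarith

theorem sum_pen_le (w : List ℕ) (W : ℕ) :
    ((w.length : ℚ) + 1) * ∑ T : Finset (Fin w.length), pen w W T ≤ (Bq w W : ℚ) := by
  have h1 : ∑ T : Finset (Fin w.length), pen w W T ≤ 2 ^ w.length * ((W : ℚ) + w.sum) ^ 2 := by
    calc ∑ T : Finset (Fin w.length), pen w W T
        ≤ ∑ _T : Finset (Fin w.length), ((W : ℚ) + w.sum) ^ 2 :=
          Finset.sum_le_sum fun T _ => pen_le w W T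
      _ = 2 ^ w.length * ((W : ℚ) + w.sum) ^ 2 := by
          rw [Finset.sum_const, Finset.card_univ, Fintype.card_finset, Fintype.card_fin,
            nsmul_eq_mul]
          push_cast
          ring
  have e : (Bq w W : ℚ) = ((w.length : ℚ) + 1) * (2 ^ w.length * ((W : ℚ) + w.sum) ^ 2) := by
    unfold Bq
    simp only [Nat.cast_mul, Nat.cast_add, Nat.cast_pow, Nat.cast_one, Nat.cast_ofNat]
  rw [e]
  exact mul_le_mul_of_nonneg_left h1 (by positivity)

theorem red_submodular (w : List ℕ) (W : ℕ) (hw : ∀ a ∈ w, a ≤ 2 * W) :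
    Submodular (Inst.eval (red (w, W))) := by
  have h1 := ex_main (N := w.length) (pen w W) (pen_nonneg w W) (Bq w W) (sum_pen_le w W)
  have h4 : ∀ x y : Fin (4 + w.length) → Bool,
      Inst.eval (red (w, W)) (fun i : Fin (4 + w.length) => x i && y i) +
        Inst.eval (red (w, W)) (fun i : Fin (4 + w.length) => x i || y i) ≤
        Inst.eval (red (w, W)) x + Inst.eval (red (w, W)) y := by
    intro x y
    have h2 := h1.submod x y
    have h3 := h4_sub x y
    rw [eval_red w W hw, eval_red w W hw, eval_red w W hw, eval_red w W hw]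
    linarith
  exact h4

theorem red_expressible (w : List ℕ) (W : ℕ) (hw : ∀ a ∈ w, a ≤ 2 * W)
    (h : ¬ SubsetSum (w, W)) : Expressible (Inst.eval (red (w, W))) := by
  have h1 := ex_main (N := w.length) (fun T => pen w W T - 1)
    (fun T => by have := pen_pos w W h T; linarith) (Bq w W) (le_trans
      (mul_le_mul_of_nonneg_left (Finset.sum_le_sum fun T _ => by linarith) (by positivity))
      (sum_pen_le w W))
  refine (Ex.congr (ex_h4.add h1) fun x => ?_).expressible
  rw [eval_red w W hw]
  ring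

/-- the points -/
def qpt : Fin 5 → Fin 4 → Bool :=
  ![![true, false, false, false], ![false, true, false, false], ![false, false, true, true],
    ![true, true, true, false], ![true, true, false, true]]

def ppt : Fin 5 → Fin 4 → Bool :=
  ![![true, true, false, false], ![true, false, true, false], ![false, true, true, false],
    ![true, false, false, true], ![false, true, false, true]]

theorem qpt_eq : ∀ (i : Fin 4) (j : Fin 5), qpt j i = Phi (fun k => ppt k i) j := by decide

theorem Phi_const : ∀ (b : Bool) (j : Fin 5), Phi (fun _ => b) j = b := by decide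

theorem red_not_expressible (w : List ℕ) (W : ℕ) (hw : ∀ a ∈ w, a ≤ 2 * W)
    (h : SubsetSum (w, W)) : ¬ Expressible (Inst.eval (red (w, W))) := by
  intro hE
  rw [subsetSum_iff] at h
  obtain ⟨T, hT⟩ := h
  let pt : (Fin 4 → Bool) → Fin (4 + w.length) → Bool := fun u => Fin.append u fun t => decide (t ∈ T)
  have hx : ∀ u i, pt u (xv i) = u i := fun u i => Fin.append_left _ _ _
  have hy : ∀ u t, pt u (yv t) = decide (t ∈ T) := fun u t => Fin.append_right _ _ _
  have h1 := expressible_ineq hE (fun j => pt (ppt j)) (fun j => pt (qpt j)) (by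
    intro i j
    refine Fin.addCases (fun i => ?_) (fun t => ?_) i
    · simp only [hx]
      exact qpt_eq i j
    · simp only [hy]
      exact (Phi_const _ j).symm)
  have hs : ∀ u, supp (pt u) = T := by
    intro u
    ext t
    simp [supp, hy]
  have hpen : pen w W T = 0 := by
    unfold pen
    have : (∑ t ∈ T, (w.get t : ℚ)) = W := by exact_mod_cast hT
    rw [this]
    ring
  have hys : ∀ u, ys (pt u) = ys (pt fun _ => false) := by
    intro u
    unfold ys
    simp only [hy]
  have hev : ∀ u, Inst.eval (red (w, W)) (pt u) = (hz (u 0) (u 1) (u 2) (u 3) : ℚ) -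
      (Bq w W : ℚ) * ((bv (u 2) + bv (u 3)) * ys (pt fun _ => false) +
        ys (pt fun _ => false) * (ys (pt fun _ => false) - 1) / 2) := by
    intro u
    rw [eval_red w W hw, h4_eq, hs, hpen]
    unfold PS
    rw [hys u, hx, hx, hx, hx]
    ring
  simp only [hev] at h1
  generalize ys (pt fun _ => false) = y at h1
  generalize (Bq w W : ℚ) = B at h1
  have hz' : ∀ a b c d, ((hz a b c d : ℤ) : ℚ) = ((-(a.toNat * b.toNat * ((1 - c.toNat) *
      (1 - d.toNat)) : ℤ) - (a.toNat + b.toNat) * (c.toNat + d.toNat) : ℤ) : ℚ) :=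
    fun _ _ _ _ => rfl
  simp only [Fin.sum_univ_five, hz'] at h1
  simp [qpt, ppt] at h1
  linarith

end Pool.Agent.Q216.SM
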