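import Pool.Agent.Q90.SM.Stm

/-! Lemma TAIL: from tails to the exponential integral (layer cake formula). -/

set_option autoImplicit false
open Complex Filter Topology Set Metric MeasureTheory

namespace Pool.Agent.Q216.SM

open Q90.SM

theorem int_gauss {β : ℝ} (hβ : 0 < β) :
    IntegrableOn (fun t : ℝ => t * Real.exp (-β * t ^ 2)) (Ioi 0) ∧
      ∫ t in Ioi (0 : ℝ), t * Real.exp (-β * t ^ 2) = 1 / (2 * β) := by
  have hi : IntegrableOn (fun t : ℝ => t * Real.exp (-β * t ^ 2)) (Ioi 0) :=
    (integrable_mul_exp_neg_mul_sq hβ).integrableOn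
  refine ⟨hi, ?_⟩
  have hd : ∀ x : ℝ, HasDerivAt (fun t : ℝ => -(Real.exp (-β * t ^ 2) / (2 * β)))
      (x * Real.exp (-β * x ^ 2)) x := by
    intro x
    have h1 : HasDerivAt (fun t : ℝ => -β * t ^ 2) (-β * (2 * x)) x := by
      have := (hasDerivAt_pow 2 x).const_mul (-β)
      simpa using this
    have h2 := (h1.exp.div_const (2 * β)).neg
    convert! h2 using 1
    field_simp
  have ht : Tendsto (fun t : ℝ => -(Real.exp (-β * t ^ 2) / (2 * β))) atTop (𝓝 0) := by
    have h1 : Tendsto (fun t : ℝ => -β * t ^ 2) atTop atBot :=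
      (tendsto_pow_atTop two_ne_zero).const_mul_atTop_of_neg (by linarith)
    have h2 := ((Real.tendsto_exp_atBot.comp h1).div_const (2 * β)).neg
    simpa using h2
  have h3 := integral_Ioi_of_hasDerivAt_of_tendsto (a := 0)
    (hd 0).continuousAt.continuousWithinAt (fun x _ => hd x) hi ht
  rw [h3]
  simp

theorem tail_all : S_tail := by
  intro f hf hf0 a b K L ha hab hK hL htail
  have hpi : (0 : ℝ) < 2 * Real.pi := by positivity
  set μ : Measure ℝ := volume.restrict (Ioc 0 (2 * Real.pi)) with hμ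
  set g : ℝ → ℝ := fun u => 2 * a * L * u * Real.exp (a * L * u ^ 2) with hg
  set F : ℝ → ℝ := fun θ => f θ / L with hF
  have hgc : Continuous g := by rw [hg]; fun_prop
  have hFc : Continuous F := by rw [hF]; fun_prop
  have hder : ∀ x : ℝ, HasDerivAt (fun u : ℝ => Real.exp (a * L * u ^ 2)) (g x) x := by
    intro x
    have h1 : HasDerivAt (fun t : ℝ => a * L * t ^ 2) (a * L * (2 * x)) x := by
      have := (hasDerivAt_pow 2 x).const_mul (a * L)
      simpa using this
    have h2 := h1.exp
    convert! h2 using 1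
    rw [hg]
    ring
  have hprim : ∀ x : ℝ, ∫ u in (0 : ℝ)..x, g u = Real.exp (a * L * x ^ 2) - 1 := by
    intro x
    rw [intervalIntegral.integral_eq_sub_of_hasDerivAt (fun u _ => hder u)
      (hgc.intervalIntegrable _ _)]
    simp
  have hlayer := lintegral_comp_eq_lintegral_meas_lt_mul μ
    (Eventually.of_forall fun θ => div_nonneg (hf0 θ) hL.le : 0 ≤ᵐ[μ] F) hFc.aemeasurable
    (fun t _ => hgc.intervalIntegrable 0 t)
    ((ae_restrict_iff' measurableSet_Ioi).2 (Eventually.of_forall fun t ht => by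
      have : (0 : ℝ) < t := ht
      rw [hg]
      positivity))
  have hβ : 0 < (b - a) * L := mul_pos (by linarith) hL
  obtain ⟨hi, hv⟩ := int_gauss hβ
  have hright : ∫⁻ t in Ioi (0 : ℝ), μ {θ | t < F θ} * ENNReal.ofReal (g t) ≤
      ENNReal.ofReal (2 * Real.pi * (K * a / (b - a))) := by
    have h1 : ∫⁻ t in Ioi (0 : ℝ), μ {θ | t < F θ} * ENNReal.ofReal (g t) ≤
        ∫⁻ t in Ioi (0 : ℝ), ENNReal.ofReal (4 * Real.pi * K * a * L *
          (t * Real.exp (-((b - a) * L) * t ^ 2))) := by
      refine setLIntegral_mono (by fun_prop) fun t ht => ?_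
      have ht0 : (0 : ℝ) < t := ht
      have h2 : μ {θ | t < F θ} ≤
          ENNReal.ofReal (2 * Real.pi * K * Real.exp (-b * t ^ 2 * L)) := by
        rw [hμ, Measure.restrict_apply' measurableSet_Ioc]
        refine (measure_mono ?_).trans (htail t ht0.le)
        rintro θ ⟨h3, h4⟩
        refine ⟨h4, ?_⟩
        have h5 : t < f θ / L := h3
        rwa [lt_div_iff₀ hL] at h5
      refine (mul_le_mul_left h2 _).trans ?_
      rw [← ENNReal.ofReal_mul (by positivity)]
      apply ENNReal.ofReal_le_ofReal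
      apply le_of_eq
      have h3 : Real.exp (-((b - a) * L) * t ^ 2) =
          Real.exp (-b * t ^ 2 * L) * Real.exp (a * L * t ^ 2) := by
        rw [← Real.exp_add]
        congr 1
        ring
      rw [h3, hg]
      ring
    refine h1.trans ?_
    rw [← ofReal_integral_eq_lintegral_ofReal (hi.const_mul _) ((ae_restrict_iff' measurableSet_Ioi).2
      (Eventually.of_forall fun t ht => by
        have : (0 : ℝ) < t := ht
        positivity)), integral_const_mul, hv]
    apply ENNReal.ofReal_le_ofReal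
    apply le_of_eq
    have h2 : b - a ≠ 0 := by linarith
    field_simp
    ring
  have hexp : ∀ θ, Real.exp (a * f θ ^ 2 / L) = Real.exp (a * L * F θ ^ 2) := by
    intro θ
    congr 1
    rw [hF]
    field_simp
  have hc2 : Continuous fun θ => Real.exp (a * L * F θ ^ 2) - 1 := by fun_prop
  have hint : Integrable (fun θ => Real.exp (a * L * F θ ^ 2) - 1) μ :=
    (hc2.integrableOn_Icc (a := 0) (b := 2 * Real.pi)).mono_set Ioc_subset_Icc_self
  have hnn : ∀ θ, 0 ≤ Real.exp (a * L * F θ ^ 2) - 1 := fun θ => by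
    have := Real.one_le_exp (by positivity : 0 ≤ a * L * F θ ^ 2)
    linarith
  have hleft : ENNReal.ofReal (∫ θ, (Real.exp (a * L * F θ ^ 2) - 1) ∂μ) ≤
      ENNReal.ofReal (2 * Real.pi * (K * a / (b - a))) := by
    rw [ofReal_integral_eq_lintegral_ofReal hint (Eventually.of_forall hnn)]
    refine le_trans (le_of_eq ?_) hright
    rw [← hlayer]
    refine lintegral_congr fun θ => ?_
    rw [hprim]
  have hK' : 0 ≤ 2 * Real.pi * (K * a / (b - a)) := by
    have : 0 < b - a := by linarith
    positivity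
  have hle := (ENNReal.ofReal_le_ofReal_iff hK').1 hleft
  have hone : ∫ θ, (1 : ℝ) ∂μ = 2 * Real.pi := by
    rw [hμ, integral_const, measureReal_restrict_apply_univ, Real.volume_real_Ioc]
    simp [hpi.le]
  have hsplit : ∫ θ, (Real.exp (a * L * F θ ^ 2) - 1) ∂μ =
      (∫ θ, Real.exp (a * L * F θ ^ 2) ∂μ) - 2 * Real.pi := by
    rw [← hone, ← integral_sub]
    · have := hint.add (integrable_const (1 : ℝ) : Integrable (fun _ : ℝ => (1 : ℝ)) μ)
      refine this.congr (Eventually.of_forall fun θ => ?_)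
      simp
    · exact integrable_const _
  rw [intervalIntegral.integral_of_le hpi.le]
  simp only [hexp]
  rw [hsplit] at hle
  have h6 : ∫ θ, Real.exp (a * L * F θ ^ 2) ∂μ ≤ 2 * Real.pi * (1 + K * a / (b - a)) := by linarith
  rw [one_div, inv_mul_le_iff₀ hpi]
  exact h6

end Pool.Agent.Q216.SM
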